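import Pool.Agent.H341R2.WeilSharp
import Pool.Agent.H341R2.CurveFacts
import Pool.Agent.TH869.EVF.Wf
import Pool.Agent.Y549.SP.SPL

set_option autoImplicit false

/-! The complete sums of the Jacobi symbol of a polynomial, uniformly in the polynomial. -/

namespace Pool.Agent.R418.UP

open Polynomial Finset

/-- a number divisible by all bad primes -/
noncomputable def bad (f : ℤ[X]) : ℤ := f.leadingCoeff * resultant f f.derivative

theorem bad_ne_zero (f : ℤ[X]) (hf : (f.map (Int.castRingHom ℚ)).Separable) : bad f ≠ 0 := by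
  have h0 : f ≠ 0 := by
    rintro rfl
    rw [Polynomial.map_zero] at hf
    exact hf.ne_zero rfl
  have hinj : Function.Injective (Int.castRingHom ℚ) := RingHom.injective_int _
  have h1 : resultant (f.map (Int.castRingHom ℚ)) (f.derivative.map (Int.castRingHom ℚ)) ≠ 0 := by
    apply resultant_ne_zero
    rw [← derivative_map]
    exact hf
  rw [natDegree_map_eq_of_injective hinj, natDegree_map_eq_of_injective hinj,
    resultant_map_map] at h1
  have h2 : resultant f f.derivative ≠ 0 := fun h => h1 (by rw [h, map_zero])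
  exact mul_ne_zero (leadingCoeff_ne_zero.mpr h0) h2

theorem separable_mod (f : ℤ[X]) (hd : 1 ≤ f.natDegree) (p : ℕ) [Fact p.Prime]
    (hp : ¬ (p : ℤ) ∣ bad f) :
    (f.map (Int.castRingHom (ZMod p))).natDegree = f.natDegree ∧
      (f.map (Int.castRingHom (ZMod p))).Separable := by
  have h1 : ((f.leadingCoeff : ℤ) : ZMod p) ≠ 0 := by
    intro h
    rw [ZMod.intCast_zmod_eq_zero_iff_dvd] at h
    exact hp (Dvd.dvd.mul_right h _)
  have h2 : ((resultant f f.derivative : ℤ) : ZMod p) ≠ 0 := by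
    intro h
    rw [ZMod.intCast_zmod_eq_zero_iff_dvd] at h
    exact hp (Dvd.dvd.mul_left h _)
  refine ⟨natDegree_map_of_leadingCoeff_ne_zero _ (by simpa using h1), ?_⟩
  obtain ⟨a, b, -, -, hab⟩ := exists_mul_add_mul_eq_C_resultant f f.derivative le_rfl le_rfl
    (Or.inl (by omega))
  have h3 := congrArg (Polynomial.map (Int.castRingHom (ZMod p))) hab
  rw [Polynomial.map_add, Polynomial.map_mul, Polynomial.map_mul, Polynomial.map_C] at h3
  rw [Polynomial.separable_def, derivative_map]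
  refine ⟨C (((resultant f f.derivative : ℤ) : ZMod p))⁻¹ * a.map (Int.castRingHom (ZMod p)),
    C (((resultant f f.derivative : ℤ) : ZMod p))⁻¹ * b.map (Int.castRingHom (ZMod p)), ?_⟩
  calc _ = C (((resultant f f.derivative : ℤ) : ZMod p))⁻¹ *
        (f.map (Int.castRingHom (ZMod p)) * a.map (Int.castRingHom (ZMod p)) +
          f.derivative.map (Int.castRingHom (ZMod p)) * b.map (Int.castRingHom (ZMod p))) := by ring
    _ = 1 := by
        rw [h3, ← C_mul, eq_intCast, inv_mul_cancel₀ h2, C_1]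

/-- the Weil bound at the good primes -/
theorem weil_poly (f : ℤ[X]) (hd : 1 ≤ f.natDegree) (p : ℕ) (hp : p.Prime) (hp2 : p ≠ 2)
    (hb : ¬ (p : ℤ) ∣ bad f) :
    |((∑ n ∈ range p, jacobiSym (f.eval (n : ℤ)) p : ℤ) : ℝ)| ≤ f.natDegree * √p := by
  have : Fact p.Prime := ⟨hp⟩
  obtain ⟨h1, h2⟩ := separable_mod f hd p hb
  have hF : ringChar (ZMod p) ≠ 2 := by
    rw [ZMod.ringChar_zmod_n]; exact hp2
  have h3 := Pool.Agent.H341R2.Sharp.weil_sharp hF (f.map (Int.castRingHom (ZMod p)))
    (by omega) (Pool.Agent.H341R2.not_const_mul_sq h2 (by omega))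
  rw [h1, ZMod.card] at h3
  have h4 : ∑ x : ZMod p, ((quadraticChar (ZMod p)
      ((f.map (Int.castRingHom (ZMod p))).eval x) : ℤ) : ℝ) =
      ((∑ n ∈ range p, jacobiSym (f.eval (n : ℤ)) p : ℤ) : ℝ) := by
    rw [Pool.Agent.TH869.EVF.sum_zmod p]
    push_cast
    refine sum_congr rfl fun n _ => ?_
    have h7 : (f.map (Int.castRingHom (ZMod p))).eval (n : ZMod p) =
        ((f.eval (n : ℤ) : ℤ) : ZMod p) := by
      have := Polynomial.eval_intCast_map (Int.castRingHom (ZMod p)) f (n : ℤ)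
      rw [eq_intCast, Int.cast_natCast] at this
      exact this
    rw [h7, ← jacobiSym.legendreSym.to_jacobiSym, legendreSym]
  rw [h4] at h3
  refine h3.trans ?_
  have h5 : 0 ≤ √(p : ℝ) := Real.sqrt_nonneg _
  nlinarith

theorem per_poly (f : ℤ[X]) (p n : ℕ) :
    jacobiSym (f.eval ((n + p : ℕ) : ℤ)) p = jacobiSym (f.eval (n : ℤ)) p := by
  apply jacobiSym.mod_left'
  have h1 := Polynomial.sub_dvd_eval_sub ((n + p : ℕ) : ℤ) (n : ℤ) f
  have h2 : ((n + p : ℕ) : ℤ) - (n : ℤ) = p := by push_cast; ring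
  rw [h2] at h1
  exact (Int.modEq_iff_dvd.mpr h1).symm

theorem abs_resultant_le (f : ℤ[X]) (D : ℕ) (M : ℝ) (hM : 1 ≤ M) (hD : f.natDegree ≤ D)
    (hD1 : 1 ≤ D) (hf : ∀ i, |((f.coeff i : ℤ) : ℝ)| ≤ M) :
    |((resultant f f.derivative : ℤ) : ℝ)| ≤ (2 * D).factorial * (D * M) ^ (2 * D) := by
  have hDr : (1 : ℝ) ≤ D := by exact_mod_cast hD1
  have hDM : 1 ≤ (D : ℝ) * M := by nlinarith
  have hdeg : f.natDegree + f.derivative.natDegree ≤ 2 * D := by
    have := natDegree_derivative_le f
    omega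
  have hentry : ∀ i j : Fin (f.natDegree + f.derivative.natDegree),
      |((sylvester f f.derivative f.natDegree f.derivative.natDegree i j : ℤ) : ℝ)| ≤ D * M := by
    intro i j
    have h0 : (0 : ℝ) ≤ D * M := by linarith
    have hc1 : ∀ k, |((f.coeff k : ℤ) : ℝ)| ≤ D * M := fun k => by
      have := hf k
      nlinarith
    have hc2 : ∀ k, |((f.derivative.coeff k : ℤ) : ℝ)| ≤ D * M := by
      intro k
      rw [coeff_derivative]
      rcases le_or_gt (k + 1) D with h | h
      · push_cast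
        rw [abs_mul]
        have h1 : |(k : ℝ) + 1| ≤ D := by
          rw [abs_of_nonneg (by positivity)]
          exact_mod_cast h
        calc |((f.coeff (k + 1) : ℤ) : ℝ)| * |(k : ℝ) + 1| ≤ M * D :=
              mul_le_mul (hf _) h1 (abs_nonneg _) (by linarith)
          _ = D * M := mul_comm _ _
      · rw [coeff_eq_zero_of_natDegree_lt (lt_of_le_of_lt hD h)]
        simpa using h0
    rw [sylvester, Matrix.of_apply]
    induction j using Fin.addCases with
    | left j =>
      rw [Fin.addCases_left]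
      split_ifs
      · exact hc2 _
      · simpa using h0
    | right j =>
      rw [Fin.addCases_right]
      split_ifs
      · exact hc1 _
      · simpa using h0
  have h1 := Matrix.det_le (A := (sylvester f f.derivative f.natDegree
    f.derivative.natDegree).map (fun z : ℤ => (z : ℝ))) (abv := AbsoluteValue.abs)
    (x := (D : ℝ) * M) (fun i j => hentry i j)
  have h2 : ((sylvester f f.derivative f.natDegree f.derivative.natDegree).map
      (fun z : ℤ => (z : ℝ))).det = ((resultant f f.derivative : ℤ) : ℝ) := by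
    rw [resultant]
    exact (Int.cast_det _).symm
  rw [h2, Fintype.card_fin, nsmul_eq_mul] at h1
  refine le_trans h1 ?_
  have h3 : ((f.natDegree + f.derivative.natDegree).factorial : ℝ) ≤ (2 * D).factorial := by
    exact_mod_cast Nat.factorial_le hdeg
  have h4 : ((D : ℝ) * M) ^ (f.natDegree + f.derivative.natDegree) ≤ (D * M) ^ (2 * D) :=
    pow_le_pow_right₀ hDM hdeg
  exact mul_le_mul h3 h4 (by positivity) (by positivity)

/-- few primes are bad -/
theorem card_bad (D : ℕ) (hD1 : 1 ≤ D) : ∃ C : ℝ, 0 < C ∧ ∀ (f : ℤ[X]) (M : ℝ), 1 ≤ M →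
    f.natDegree ≤ D → (f.map (Int.castRingHom ℚ)).Separable →
    (∀ i, |((f.coeff i : ℤ) : ℝ)| ≤ M) → ∀ P : Finset ℕ, (∀ p ∈ P, p.Prime) →
      ((P.filter (fun p : ℕ => (p : ℤ) ∣ bad f)).card : ℝ) ≤ C * (1 + Real.log M) := by
  have hDr : (1 : ℝ) ≤ D := by exact_mod_cast hD1
  refine ⟨2 * (Real.log (2 * D).factorial + 2 * D * Real.log D + (2 * D + 1)), ?_, ?_⟩
  · have h1 : 0 ≤ Real.log (2 * D).factorial := Real.log_natCast_nonneg _
    have h2 : 0 ≤ Real.log (D : ℝ) := Real.log_nonneg hDr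
    positivity
  intro f M hM hD hf hfc P hP
  have hb := bad_ne_zero f hf
  have hb0 : (bad f).natAbs ≠ 0 := Int.natAbs_ne_zero.mpr hb
  have h1 : P.filter (fun p : ℕ => (p : ℤ) ∣ bad f) ⊆ (bad f).natAbs.primeFactors := by
    intro p hp
    rw [mem_filter] at hp
    exact Nat.mem_primeFactors.mpr ⟨hP p hp.1, Int.natCast_dvd.mp hp.2, hb0⟩
  have h2 := Pool.Agent.Y549.SP.SPL.card_primeFactors_le (bad f).natAbs hb0
  have h3 : ((P.filter (fun p : ℕ => (p : ℤ) ∣ bad f)).card : ℝ) ≤
      (bad f).natAbs.primeFactors.card := by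
    exact_mod_cast card_le_card h1
  have h4 : ((bad f).natAbs : ℝ) ≤ M * ((2 * D).factorial * (D * M) ^ (2 * D)) := by
    rw [Nat.cast_natAbs, Int.cast_abs, bad, Int.cast_mul, abs_mul]
    exact mul_le_mul (hfc _) (abs_resultant_le f D M hM hD hD1 hfc) (abs_nonneg _) (by linarith)
  have h5 : Real.log ((bad f).natAbs : ℝ) ≤ Real.log (2 * D).factorial + 2 * D * Real.log D +
      (2 * D + 1) * Real.log M := by
    have hpos : (0 : ℝ) < (bad f).natAbs := by exact_mod_cast Nat.pos_of_ne_zero hb0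
    have hfac : ((2 * D).factorial : ℝ) ≠ 0 := by exact_mod_cast (Nat.factorial_pos _).ne'
    have hM0 : (M : ℝ) ≠ 0 := by linarith
    have hD0 : (D : ℝ) ≠ 0 := by linarith
    have h6 := Real.log_le_log hpos h4
    rw [Real.log_mul hM0 (by positivity), Real.log_mul hfac (by positivity), Real.log_pow,
      Real.log_mul hD0 hM0] at h6
    push_cast at h6
    linarith
  have hlM : 0 ≤ Real.log M := Real.log_nonneg hM
  have hl1 : 0 ≤ Real.log (2 * D).factorial := Real.log_natCast_nonneg _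
  have hl2 : 0 ≤ 2 * (D : ℝ) * Real.log D := by
    have : 0 ≤ Real.log (D : ℝ) := Real.log_nonneg hDr
    positivity
  have h7 : 0 ≤ Real.log (2 * D).factorial * Real.log M := mul_nonneg hl1 hlM
  have h8 : 0 ≤ 2 * (D : ℝ) * Real.log D * Real.log M := mul_nonneg hl2 hlM
  calc ((P.filter (fun p : ℕ => (p : ℤ) ∣ bad f)).card : ℝ)
      ≤ 2 * Real.log ((bad f).natAbs : ℝ) := h3.trans h2
    _ ≤ 2 * (Real.log (2 * D).factorial + 2 * D * Real.log D + (2 * D + 1) * Real.log M) := by
        linarith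
    _ ≤ 2 * (Real.log (2 * D).factorial + 2 * D * Real.log D + (2 * D + 1)) *
        (1 + Real.log M) := by nlinarith

end Pool.Agent.R418.UP
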