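import Pool.Agent.Y549.SP.BL
import Pool.Agent.Y549.SP.NUM2
import Pool.Agent.TH869.EVF.Block

set_option autoImplicit false

/-! Few arguments have a large sum of periodic functions with small means. -/

namespace Pool.Agent.R418.UP

open Finset Pool.Agent.Y549.SP Pool.Agent.TH869.EVF

/-- the mean value of the product over `r` blocks -/
theorem LSP (ψ : ℕ → ℕ → ℤ) (K y0 : ℝ) (B : ℕ → Finset ℕ) (X y b : ℕ) (J : Finset ℕ) (V : ℝ)
    (hK : 0 ≤ K) (hy0 : 0 < y0) (hy : 1 ≤ y) (hyJ : y ^ (3 * J.card) ≤ X) (hby : b ≤ y)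
    (hb0 : (b : ℝ) * J.card ≤ 4 * y0)
    (hB1 : ∀ i ∈ J, ∀ p ∈ B i, p.Prime ∧ y0 ≤ p ∧ p ≤ y) (hB2 : ∀ i ∈ J, (B i).card = b)
    (hB3 : ∀ i ∈ J, ∀ j ∈ J, i ≠ j → Disjoint (B i) (B j)) (hV : 0 ≤ V)
    (hper : ∀ i ∈ J, ∀ p ∈ B i, ∀ n, ψ p (n + p) = ψ p n) (hle : ∀ p n, |ψ p n| ≤ 1)
    (hsum : ∀ i ∈ J, ∀ p ∈ B i, |((∑ n ∈ range p, ψ p n : ℤ) : ℝ)| ≤ K * √p) :
    (((range X).filter (fun j : ℕ => ∀ i ∈ J,
      V ≤ |((∑ p ∈ B i, ψ p j : ℤ) : ℝ)|)).card : ℝ) *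
        V ^ (2 * J.card) ≤ (Real.exp (4 * K ^ 2) + 1) * X * (b : ℝ) ^ J.card := by
  obtain ⟨r, hr⟩ : ∃ r : ℕ, r = J.card := ⟨_, rfl⟩
  have hb := block (fun p n => ((ψ p n : ℤ) : ℝ)) K y0 y b hK hy0 hy B J hB1
    (fun i hi => (hB2 i hi).le) hB3 (fun i hi p hp n => by
      show ((ψ p (n + p) : ℤ) : ℝ) = ((ψ p n : ℤ) : ℝ)
      rw [hper i hi p hp n])
    (fun p n => by exact_mod_cast hle p n)
    (fun i hi p hp => by
      have := hsum i hi p hp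
      push_cast at this
      exact this) X 1 (fun _ => 1) one_pos (fun _ => rfl) (fun _ => by simp)
    (fun _ _ _ _ => Nat.coprime_one_left _)
  simp only [one_mul, range_one, sum_singleton, abs_one, Nat.cast_one, div_one, mul_one] at hb
  rw [← hr] at hb hyJ hb0 ⊢
  have hL : (((range X).filter (fun j : ℕ => ∀ i ∈ J,
      V ≤ |((∑ p ∈ B i, ψ p j : ℤ) : ℝ)|)).card : ℝ) *
        V ^ (2 * r) ≤ ∑ j ∈ range X, ∏ i ∈ J, (∑ p ∈ B i, ((ψ p j : ℤ) : ℝ)) ^ 2 := by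
    rw [← nsmul_eq_mul, ← sum_const]
    refine le_trans (sum_le_sum fun j hj => ?_)
      (sum_le_sum_of_subset_of_nonneg (filter_subset _ _) fun _ _ _ =>
        prod_nonneg fun _ _ => by positivity)
    rw [mem_filter] at hj
    rw [pow_mul, hr, ← prod_const]
    refine prod_le_prod (fun _ _ => by positivity) fun i hi => ?_
    rw [← sq_abs (∑ p ∈ B i, ((ψ p j : ℤ) : ℝ))]
    have h1 := hj.2 i hi
    push_cast at h1
    exact pow_le_pow_left₀ hV h1 2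
  refine hL.trans ((le_abs_self _).trans (hb.trans ?_))
  have hbn : (0 : ℝ) ≤ b := Nat.cast_nonneg b
  have hXn : (0 : ℝ) ≤ X := Nat.cast_nonneg X
  have h1 : (b + b ^ 2 * (K ^ 2 / y0) : ℝ) ^ r ≤ (b : ℝ) ^ r * Real.exp (4 * K ^ 2) := by
    rcases Nat.eq_zero_or_pos r with hr0 | hr0
    · rw [hr0, pow_zero, pow_zero, one_mul]
      exact Real.one_le_exp (by positivity)
    have hr0' : (0 : ℝ) < r := by exact_mod_cast hr0
    have h2 : (b + b ^ 2 * (K ^ 2 / y0) : ℝ) ≤ b * Real.exp (4 * K ^ 2 / r) := by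
      have h3 : (b : ℝ) * (K ^ 2 / y0) ≤ 4 * K ^ 2 / r := by
        rw [mul_div_assoc', div_le_div_iff₀ hy0 hr0']
        calc (b : ℝ) * K ^ 2 * r = K ^ 2 * (b * r) := by ring
          _ ≤ K ^ 2 * (4 * y0) := mul_le_mul_of_nonneg_left hb0 (by positivity)
          _ = _ := by ring
      have h4 := Real.add_one_le_exp (4 * K ^ 2 / r)
      calc (b + b ^ 2 * (K ^ 2 / y0) : ℝ) = b * (b * (K ^ 2 / y0) + 1) := by ring
        _ ≤ b * Real.exp (4 * K ^ 2 / r) := by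
            apply mul_le_mul_of_nonneg_left _ hbn
            linarith
    calc (b + b ^ 2 * (K ^ 2 / y0) : ℝ) ^ r ≤ (b * Real.exp (4 * K ^ 2 / r)) ^ r :=
          pow_le_pow_left₀ (by positivity) h2 r
      _ = (b : ℝ) ^ r * Real.exp (4 * K ^ 2) := by
          rw [mul_pow, ← Real.exp_nat_mul]
          congr 2
          field_simp
  have h2 : (((b : ℝ) ^ 2 * (y : ℝ) ^ 2) ^ r) ≤ (b : ℝ) ^ r * X := by
    have h3 : (b : ℝ) ≤ y := by exact_mod_cast hby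
    have h4 : ((y : ℝ) ^ (3 * r)) ≤ X := by exact_mod_cast hyJ
    calc (((b : ℝ) ^ 2 * (y : ℝ) ^ 2) ^ r) = (b : ℝ) ^ r * ((b * (y : ℝ) ^ 2) ^ r) := by
          rw [← mul_pow]
          congr 1
          ring
      _ ≤ (b : ℝ) ^ r * ((y * (y : ℝ) ^ 2) ^ r) := by gcongr
      _ = (b : ℝ) ^ r * (y : ℝ) ^ (3 * r) := by
          congr 1
          rw [pow_mul]
          congr 1
          ring
      _ ≤ _ := by gcongr
  calc (X : ℝ) * (b + b ^ 2 * (K ^ 2 / y0)) ^ r + ((b : ℝ) ^ 2 * y ^ 2) ^ r ≤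
        X * ((b : ℝ) ^ r * Real.exp (4 * K ^ 2)) + (b : ℝ) ^ r * X :=
        add_le_add (mul_le_mul_of_nonneg_left h1 hXn) h2
    _ = _ := by ring

theorem BADP (A ρ κ η ε K : ℝ) (hρ : 0 < ρ) (hρ1 : ρ ≤ 1) (hAρ : 1 < A * ρ) (hκ : 0 < κ)
    (hκ1 : κ ≤ 1) (hη : 0 < η) (hη1 : η ≤ 1) (hε : 0 < ε) (hK : 0 ≤ K) :
    ∃ c K₁ : ℝ, 0 < c ∧ 0 < K₁ ∧ ∀ (ψ : ℕ → ℕ → ℤ) (P : Finset ℕ) (X y : ℕ), 1 ≤ X →
      (∀ p ∈ P, p.Prime ∧ η * P.card ≤ 8 * p ∧ p ≤ y) →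
      (∀ p ∈ P, ∀ n, ψ p (n + p) = ψ p n) → (∀ p n, |ψ p n| ≤ 1) →
      (∀ p ∈ P, |((∑ n ∈ range p, ψ p n : ℤ) : ℝ)| ≤ K * √p) →
      (Real.log X / A) ^ A ≤ y → (y : ℝ) ≤ (X : ℝ) ^ c → κ * (y : ℝ) ^ ρ ≤ P.card * Real.log y →
      (((range X).filter (fun j : ℕ => η * P.card ≤
        |((∑ p ∈ P, ψ p j : ℤ) : ℝ)|)).card : ℝ) ≤
          K₁ * (X : ℝ) ^ (1 - ρ / 3 + 1 / (3 * A) + ε) := by
  classical
  have hA : 1 < A := by nlinarith
  have hA0 : 0 < A := by linarith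
  have hiA : 0 < 1 / A := by positivity
  have hiA3 : 1 / (3 * A) = 1 / A / 3 := by field_simp
  obtain ⟨c, K₀, hc, hK₀, hN⟩ := NUM2.main A ρ κ η ε hρ hρ1 hAρ hκ hκ1 hη hη1 hε
  obtain ⟨K₂, hK₂⟩ : ∃ K₂ : ℝ, K₂ = Real.exp (4 * K ^ 2) + 1 := ⟨_, rfl⟩
  have hK₂0 : 0 < K₂ := by rw [hK₂]; positivity
  refine ⟨c / 4, 729 + 8 * K₀ + 8 * K₂ * K₀, by positivity, by positivity, ?_⟩
  intro ψ P X y hX hP hper hle hsum hy1 hy2 hk
  have hXr : (1 : ℝ) ≤ X := by exact_mod_cast hX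
  have hX0 : (0 : ℝ) < X := by linarith
  obtain ⟨F, hF⟩ : ∃ F : ℝ, F = (X : ℝ) ^ (1 - ρ / 3 + 1 / (3 * A) + ε) := ⟨_, rfl⟩
  have hexp0 : 0 < 1 - ρ / 3 + 1 / (3 * A) + ε := by rw [hiA3]; linarith
  have hF1 : 1 ≤ F := by rw [hF]; exact Real.one_le_rpow hXr hexp0.le
  have hF0 : 0 < F := by linarith
  rw [← hF]
  obtain ⟨bad, hbad⟩ : ∃ bad : Finset ℕ, bad = (range X).filter (fun j : ℕ => η * P.card ≤
        |((∑ p ∈ P, ψ p j : ℤ) : ℝ)|) := ⟨_, rfl⟩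
  rw [← hbad]
  have htriv : (bad.card : ℝ) ≤ X := by
    have h1 := card_filter_le (range X) (fun j : ℕ => η * P.card ≤
        |((∑ p ∈ P, ψ p j : ℤ) : ℝ)|)
    rw [← hbad, card_range] at h1
    exact_mod_cast h1
  have hKF : 0 ≤ K₀ * F := by positivity
  have hKF2 : 0 ≤ K₂ * K₀ * F := by positivity
  obtain ⟨X', hX'⟩ : ∃ X' : ℕ, X' = ⌊(X : ℝ) ^ (1 / 3 : ℝ)⌋₊ := ⟨_, rfl⟩
  have hcube : ((X : ℝ) ^ (1 / 3 : ℝ)) ^ 3 = X := by
    rw [← Real.rpow_natCast, ← Real.rpow_mul hX0.le]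
    norm_num
  have hroot1 : (1 : ℝ) ≤ (X : ℝ) ^ (1 / 3 : ℝ) := Real.one_le_rpow hXr (by norm_num)
  have hX'1 : 1 ≤ X' := by
    rw [hX']
    exact Nat.one_le_iff_ne_zero.2 (by
      rw [Ne, Nat.floor_eq_zero]
      push Not
      exact hroot1)
  have hX'le : (X' : ℝ) ≤ (X : ℝ) ^ (1 / 3 : ℝ) := by
    rw [hX']
    exact Nat.floor_le (by linarith)
  have hX'lt : (X : ℝ) ^ (1 / 3 : ℝ) < (X' : ℝ) + 1 := by
    rw [hX']
    exact Nat.lt_floor_add_one _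
  have hX'r : (1 : ℝ) ≤ X' := by exact_mod_cast hX'1
  have hX'0 : (0 : ℝ) < X' := by linarith
  have hX'2 : X' ^ 3 ≤ X := by
    have h1 : (X' : ℝ) ^ 3 ≤ X := by
      calc (X' : ℝ) ^ 3 ≤ ((X : ℝ) ^ (1 / 3 : ℝ)) ^ 3 := pow_le_pow_left₀ hX'0.le hX'le 3
        _ = X := hcube
    exact_mod_cast h1
  have hX'3 : (X : ℝ) ≤ ((X' : ℝ) + 1) ^ 3 := by
    calc (X : ℝ) = ((X : ℝ) ^ (1 / 3 : ℝ)) ^ 3 := hcube.symm
      _ ≤ _ := pow_le_pow_left₀ (by linarith) hX'lt.le 3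
  have h4 : (X : ℝ) ≤ 8 * (X' : ℝ) ^ 3 := by
    refine hX'3.trans ?_
    have h1 : (X' : ℝ) + 1 ≤ 2 * X' := by linarith
    calc ((X' : ℝ) + 1) ^ 3 ≤ (2 * X') ^ 3 := pow_le_pow_left₀ (by linarith) h1 3
      _ = _ := by ring
  by_cases hsm : X' < 8
  · have h1 : (X : ℝ) ≤ 729 := by
      have h2 : (X' : ℝ) ≤ 8 := by exact_mod_cast hsm.le
      refine hX'3.trans ?_
      calc ((X' : ℝ) + 1) ^ 3 ≤ (9 : ℝ) ^ 3 := pow_le_pow_left₀ (by linarith) (by linarith) 3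
        _ = 729 := by norm_num
    calc (bad.card : ℝ) ≤ 729 := htriv.trans h1
      _ ≤ 729 * F := by linarith
      _ ≤ (729 + 8 * K₀ + 8 * K₂ * K₀) * F := by nlinarith
  push Not at hsm
  have hX'8 : (8 : ℝ) ≤ X' := by exact_mod_cast hsm
  have hcardP : P.card ≤ y := by
    have h : P ⊆ Icc 1 y := by
      intro p hp
      obtain ⟨h1, -, h2⟩ := hP p hp
      rw [mem_Icc]
      exact ⟨h1.one_lt.le, h2⟩
    have := card_le_card h
    rwa [Nat.card_Icc, Nat.add_sub_cancel] at this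
  have c1 : (Real.log X' / A) ^ A ≤ (y : ℝ) := by
    refine le_trans ?_ hy1
    apply Real.rpow_le_rpow (div_nonneg (Real.log_nonneg hX'r) hA0.le) _ hA0.le
    apply div_le_div_of_nonneg_right _ hA0.le
    apply Real.log_le_log hX'0
    have : X' ≤ X := (Nat.le_self_pow (by norm_num) X').trans hX'2
    exact_mod_cast this
  have c2 : (y : ℝ) ≤ (X' : ℝ) ^ c := by
    refine hy2.trans ?_
    have h1 : (X : ℝ) ≤ (X' : ℝ) ^ (4 : ℝ) := by
      have : (X' : ℝ) ^ (4 : ℝ) = (X' : ℝ) ^ 4 := by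
        rw [← Real.rpow_natCast]
        norm_num
      rw [this]
      calc (X : ℝ) ≤ 8 * (X' : ℝ) ^ 3 := h4
        _ ≤ X' * (X' : ℝ) ^ 3 := mul_le_mul_of_nonneg_right hX'8 (by positivity)
        _ = (X' : ℝ) ^ 4 := by ring
    calc (X : ℝ) ^ (c / 4) ≤ ((X' : ℝ) ^ (4 : ℝ)) ^ (c / 4) :=
          Real.rpow_le_rpow hX0.le h1 (by positivity)
      _ = (X' : ℝ) ^ c := by
          rw [← Real.rpow_mul hX'0.le]
          congr 1
          ring
  have hpow : ∀ s : ℝ, 0 ≤ s → (X' : ℝ) ^ s ≤ (X : ℝ) ^ (s / 3) := by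
    intro s hs
    calc (X' : ℝ) ^ s ≤ ((X : ℝ) ^ (1 / 3 : ℝ)) ^ s := Real.rpow_le_rpow hX'0.le hX'le hs
      _ = (X : ℝ) ^ (s / 3) := by
          rw [← Real.rpow_mul hX0.le]
          congr 1
          ring
  rcases hN X' y P.card hX'1 c1 c2 hk hcardP with hs | ⟨r, k, b, hb, a1, a2, a3, a4, a5, a6⟩
  · have h1 : (X : ℝ) ≤ 8 * K₀ * F := by
      calc (X : ℝ) ≤ 8 * (X' : ℝ) ^ 3 := h4
        _ = 8 * ((X' : ℝ) ^ 2 * X') := by ring
        _ ≤ 8 * ((X' : ℝ) ^ 2 * (K₀ * (X' : ℝ) ^ (1 - ρ + 1 / A + ε))) := by gcongr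
        _ = 8 * K₀ * (X' : ℝ) ^ (2 + (1 - ρ + 1 / A + ε)) := by
            rw [Real.rpow_add hX'0 2, Real.rpow_two]
            ring
        _ ≤ 8 * K₀ * (X : ℝ) ^ ((2 + (1 - ρ + 1 / A + ε)) / 3) := by
            have := hpow (2 + (1 - ρ + 1 / A + ε)) (by linarith)
            gcongr
        _ ≤ 8 * K₀ * F := by
            rw [hF]
            have := Real.rpow_le_rpow_of_exponent_le hXr
              (show (2 + (1 - ρ + 1 / A + ε)) / 3 ≤ 1 - ρ / 3 + 1 / (3 * A) + ε by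
                rw [hiA3]; linarith)
            gcongr
    calc (bad.card : ℝ) ≤ 8 * K₀ * F := htriv.trans h1
      _ ≤ (729 + 8 * K₀ + 8 * K₂ * K₀) * F := by nlinarith
  · obtain ⟨B, b1, b2, b3⟩ := BL.main P k b a2 a3
    have hcov : bad ⊆
        ((range k).powersetCard r).biUnion (fun J => (range X).filter (fun j : ℕ => ∀ i ∈ J,
          η / 4 * b ≤ |((∑ p ∈ B i, ψ p j : ℤ) : ℝ)|)) := by
      intro j hj
      rw [hbad, mem_filter] at hj
      obtain ⟨J, e1, e2, e3⟩ := b3 (fun p => ψ p j) η r (fun p _ => hle p j)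
        hη hη1 a4 a5 hj.2
      rw [mem_biUnion]
      exact ⟨J, mem_powersetCard.mpr ⟨e1, e2⟩, mem_filter.mpr ⟨hj.1, e3⟩⟩
    obtain ⟨W, hW⟩ : ∃ W : ℝ, W = (η / 4 * b) ^ (2 * r) := ⟨_, rfl⟩
    have hb' : (0 : ℝ) < b := by exact_mod_cast hb
    have hW0 : 0 < W := by rw [hW]; positivity
    -- `P` is not empty if `k` is positive
    have hbk : (b : ℝ) * k ≤ P.card := by
      have : k * b ≤ P.card := a2
      rw [mul_comm]
      exact_mod_cast this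
    have hkn : (0 : ℝ) ≤ k := Nat.cast_nonneg k
    have hy3r : y ^ (3 * r) ≤ X := by
      calc y ^ (3 * r) = (y ^ r) ^ 3 := by rw [← pow_mul, mul_comm]
        _ ≤ X' ^ 3 := Nat.pow_le_pow_left a1 3
        _ ≤ X := hX'2
    have heach : ∀ J ∈ (range k).powersetCard r,
        (((range X).filter (fun j : ℕ => ∀ i ∈ J,
          η / 4 * b ≤ |((∑ p ∈ B i, ψ p j : ℤ) : ℝ)|)).card : ℝ) *
            W ≤ K₂ * X * (b : ℝ) ^ r := by
      intro J hJ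
      rw [mem_powersetCard] at hJ
      rcases Nat.eq_zero_or_pos r with hr0 | hr0
      · rw [hW, hr0, mul_zero, pow_zero, pow_zero, mul_one, mul_one]
        have h1 := card_filter_le (range X) (fun j : ℕ => ∀ i ∈ J,
          η / 4 * b ≤ |((∑ p ∈ B i, ψ p j : ℤ) : ℝ)|)
        rw [card_range] at h1
        have h2 : (((range X).filter (fun j : ℕ => ∀ i ∈ J,
          η / 4 * b ≤ |((∑ p ∈ B i, ψ p j : ℤ) : ℝ)|)).card : ℝ) ≤ X := by exact_mod_cast h1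
        have h3 : (1 : ℝ) ≤ K₂ := by rw [hK₂]; linarith [Real.exp_pos (4 * K ^ 2)]
        nlinarith
      have hr1 : (1 : ℝ) ≤ r := by exact_mod_cast hr0
      have hk0 : (0 : ℝ) < k := by nlinarith
      have hk1 : 1 ≤ k := by exact_mod_cast hk0
      have hPc : (0 : ℝ) < P.card := lt_of_lt_of_le (by positivity) hbk
      have hPn : 0 < P.card := by exact_mod_cast hPc
      have hby : b ≤ y := by
        calc b = 1 * b := (one_mul b).symm
          _ ≤ k * b := Nat.mul_le_mul_right b hk1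
          _ ≤ y := a2.trans hcardP
      have hlt : ∀ i ∈ J, i < k := fun i hi => mem_range.mp (hJ.1 hi)
      have h3 := LSP ψ K (η * P.card / 8) B X y b J (η / 4 * b) hK (by positivity)
        (hPn.trans_le hcardP) (by rw [hJ.2]; exact hy3r) hby (by
          rw [hJ.2]
          have e1 : (b : ℝ) * (2 * r) ≤ b * (η * k) := mul_le_mul_of_nonneg_left a4 hb'.le
          have e2 : η * ((b : ℝ) * k) ≤ η * P.card := mul_le_mul_of_nonneg_left hbk hη.le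
          linarith)
        (fun i hi p hp => by
          obtain ⟨q1, q2, q3⟩ := hP p ((b1 i (hlt i hi)).1 hp)
          exact ⟨q1, by linarith, q3⟩)
        (fun i hi => (b1 i (hlt i hi)).2)
        (fun i hi j hj hij => b2 i (hlt i hi) j (hlt j hj) hij) (by positivity)
        (fun i hi p hp => hper p ((b1 i (hlt i hi)).1 hp)) hle
        (fun i hi p hp => hsum p ((b1 i (hlt i hi)).1 hp))
      rw [hJ.2, ← hW, ← hK₂] at h3
      exact h3
    have h6 : (bad.card : ℝ) * W ≤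
        2 ^ k * (K₂ * X * (b : ℝ) ^ r) := by
      calc _ ≤ (∑ J ∈ (range k).powersetCard r, (((range X).filter (fun j : ℕ => ∀ i ∈ J,
          η / 4 * b ≤ |((∑ p ∈ B i, ψ p j : ℤ) : ℝ)|)).card : ℝ)) *
            W := by
            refine mul_le_mul_of_nonneg_right ?_ hW0.le
            exact_mod_cast (card_le_card hcov).trans card_biUnion_le
        _ = ∑ J ∈ (range k).powersetCard r, (((range X).filter (fun j : ℕ => ∀ i ∈ J,
          η / 4 * b ≤ |((∑ p ∈ B i, ψ p j : ℤ) : ℝ)|)).card : ℝ) *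
            W := by
            rw [sum_mul]
        _ ≤ ∑ J ∈ (range k).powersetCard r, K₂ * X * (b : ℝ) ^ r :=
            sum_le_sum heach
        _ = (k.choose r : ℝ) * (K₂ * X * (b : ℝ) ^ r) := by
            rw [sum_const, card_powersetCard, card_range, nsmul_eq_mul]
        _ ≤ _ := by
            refine mul_le_mul_of_nonneg_right ?_ (by positivity)
            exact_mod_cast Nat.choose_le_two_pow k r
    rw [← hW] at a6
    obtain ⟨G, hG⟩ : ∃ G : ℝ, G = (X' : ℝ) ^ (1 + ε / 2) := ⟨_, rfl⟩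
    have hG0 : 0 < G := by rw [hG]; positivity
    obtain ⟨H, hH⟩ : ∃ H : ℝ, H = (X' : ℝ) ^ (1 - ρ + 1 / A + ε) := ⟨_, rfl⟩
    have hH0 : 0 < H := by rw [hH]; positivity
    rw [← hG, ← hH] at a6
    have h7 : (bad.card : ℝ) * G ≤ K₂ * X * (K₀ * H) := by
      have h8 : ((bad.card : ℝ) * G) * W ≤ (K₂ * X * (K₀ * H)) * W := by
        calc ((bad.card : ℝ) * G) * W = G * ((bad.card : ℝ) * W) := by ring
          _ ≤ G * (2 ^ k * (K₂ * X * (b : ℝ) ^ r)) :=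
              mul_le_mul_of_nonneg_left h6 hG0.le
          _ = K₂ * X * (G * 2 ^ k * (b : ℝ) ^ r) := by ring
          _ ≤ K₂ * X * (K₀ * H * W) :=
              mul_le_mul_of_nonneg_left a6 (by positivity)
          _ = _ := by ring
      exact le_of_mul_le_mul_right h8 hW0
    have h9 : (bad.card : ℝ) ≤ 8 * K₂ * K₀ *
        (X' : ℝ) ^ (3 - ρ + 1 / A + ε / 2) := by
      have h10 : (bad.card : ℝ) * G ≤ (8 * K₂ * K₀ *
        (X' : ℝ) ^ (3 - ρ + 1 / A + ε / 2)) * G := by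
        have h11 : (X' : ℝ) ^ (3 - ρ + 1 / A + ε / 2) * G = (X' : ℝ) ^ 3 * H := by
          rw [hG, hH, ← Real.rpow_natCast, ← Real.rpow_add hX'0, ← Real.rpow_add hX'0]
          congr 1
          push_cast
          ring
        calc (bad.card : ℝ) * G ≤ K₂ * X * (K₀ * H) := h7
          _ ≤ K₂ * (8 * (X' : ℝ) ^ 3) * (K₀ * H) := by gcongr
          _ = 8 * K₂ * K₀ * ((X' : ℝ) ^ 3 * H) := by ring
          _ = _ := by rw [← h11]; ring
      exact le_of_mul_le_mul_right h10 hG0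
    have h16 := hpow (3 - ρ + 1 / A + ε / 2) (by linarith)
    have h17 : (bad.card : ℝ) ≤ 8 * K₂ * K₀ * F := by
      calc (bad.card : ℝ) ≤ 8 * K₂ * K₀ *
            (X' : ℝ) ^ (3 - ρ + 1 / A + ε / 2) := h9
        _ ≤ 8 * K₂ * K₀ *
            (X : ℝ) ^ ((3 - ρ + 1 / A + ε / 2) / 3) := by gcongr
        _ ≤ 8 * K₂ * K₀ * F := by
            rw [hF]
            have := Real.rpow_le_rpow_of_exponent_le hXr
              (show (3 - ρ + 1 / A + ε / 2) / 3 ≤ 1 - ρ / 3 + 1 / (3 * A) + ε by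
                rw [hiA3]; linarith)
            gcongr
    calc (bad.card : ℝ) ≤ 8 * K₂ * K₀ * F := h17
      _ ≤ (729 + 8 * K₀ + 8 * K₂ * K₀) * F := by nlinarith

end Pool.Agent.R418.UP
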