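import Pool.Agent.R418.UP.A
import Pool.Agent.R418.UP.B
import Pool.Agent.R418.SI.C

set_option autoImplicit false

/-! Few values of a polynomial have a large sum of symbols, uniformly in the polynomial. -/

namespace Pool.Agent.R418.UP

open Finset Filter Polynomial Pool.Agent.Y549.SP

/-- the sum of the symbols of the value of the polynomial -/
noncomputable def sf (Q : Set ℕ) (f : ℤ[X]) (j y : ℕ) : ℤ :=
  ∑ p ∈ oq Q y, jacobiSym (f.eval (j : ℤ)) p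

open Classical in
/-- one value of `y` -/
theorem SGL (A ρ κ η ε : ℝ) (D : ℕ) (Q : Set ℕ) (hρ : 0 < ρ) (hρ1 : ρ ≤ 1) (hAρ : 1 < A * ρ)
    (hκ : 0 < κ) (hκ1 : κ ≤ 1) (hη : 0 < η) (hη1 : η ≤ 1) (hε : 0 < ε) (hD1 : 1 ≤ D) :
    ∃ c K₁ C₁ : ℝ, 0 < c ∧ 0 < K₁ ∧ 0 < C₁ ∧ ∀ (f : ℤ[X]) (M : ℝ) (X y : ℕ), 1 ≤ X →
      1 ≤ f.natDegree → f.natDegree ≤ D → (f.map (Int.castRingHom ℚ)).Separable → 1 ≤ M →
      (∀ i, |((f.coeff i : ℤ) : ℝ)| ≤ M) → C₁ * (1 + Real.log M) ≤ (oq Q y).card →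
      (Real.log X / A) ^ A ≤ y → (y : ℝ) ≤ (X : ℝ) ^ c → 2 ≤ y →
      κ * (y : ℝ) ^ ρ ≤ (oq Q y).card * Real.log y →
      (((range X).filter (fun j : ℕ => η * (oq Q y).card ≤ |(sf Q f j y : ℝ)|)).card : ℝ) ≤
        K₁ * (X : ℝ) ^ (1 - ρ / 3 + 1 / (3 * A) + ε) := by
  obtain ⟨c, K₁, hc, hK₁, hmain⟩ := BADP A ρ (κ / 2) (η / 2) ε D hρ hρ1 hAρ (by positivity)
    (by linarith) (by positivity) (by linarith) hε (Nat.cast_nonneg D)
  obtain ⟨Cb, hCb, hbadp⟩ := card_bad D hD1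
  refine ⟨c, K₁, 4 * (Cb + 1) / η, hc, hK₁, by positivity, ?_⟩
  intro f M X y hX hd1 hd2 hsep hM hfc hcard hy1 hy2 hy3 hk
  have hlM : 0 ≤ Real.log M := Real.log_nonneg hM
  obtain ⟨n, hn⟩ : ∃ n : ℝ, n = (oq Q y).card := ⟨_, rfl⟩
  have hn0 : 0 ≤ n := by rw [hn]; exact Nat.cast_nonneg _
  obtain ⟨P, hP⟩ : ∃ P : Finset ℕ, P = (oq Q y).filter
    (fun p : ℕ => ¬ ((p : ℤ) ∣ bad f ∨ (8 * p : ℝ) < η / 2 * n)) := ⟨_, rfl⟩
  obtain ⟨R, hR⟩ : ∃ R : Finset ℕ, R = (oq Q y).filter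
    (fun p : ℕ => ((p : ℤ) ∣ bad f ∨ (8 * p : ℝ) < η / 2 * n)) := ⟨_, rfl⟩
  have hoqp : ∀ p ∈ oq Q y, p.Prime := fun p hp => by
    rw [oq, mem_filter] at hp
    exact hp.2.1
  have hRcard : (R.card : ℝ) ≤ η / 2 * n := by
    have h1 : R ⊆ (oq Q y).filter (fun p : ℕ => (p : ℤ) ∣ bad f) ∪
        range (⌊η / 16 * n⌋₊ + 1) := by
      intro p hp
      rw [hR, mem_filter] at hp
      rw [mem_union, mem_filter, mem_range]
      rcases hp.2 with h | h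
      · exact Or.inl ⟨hp.1, h⟩
      · right
        have h2 : (p : ℝ) ≤ η / 16 * n := by linarith
        have := Nat.le_floor h2
        omega
    have h2 := (card_le_card h1).trans (card_union_le _ _)
    rw [card_range] at h2
    have h3 := hbadp f M hM hd2 hsep hfc (oq Q y) hoqp
    have h4 : (⌊η / 16 * n⌋₊ : ℝ) ≤ η / 16 * n := Nat.floor_le (by positivity)
    have h5 : (R.card : ℝ) ≤ ((oq Q y).filter (fun p : ℕ => (p : ℤ) ∣ bad f)).card +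
        ((⌊η / 16 * n⌋₊ : ℝ) + 1) := by exact_mod_cast h2
    rw [← hn] at hcard
    have h6 : (Cb + 1) * (1 + Real.log M) ≤ η / 4 * n := by
      have h7 : 4 * (Cb + 1) / η * (1 + Real.log M) * (η / 4) = (Cb + 1) * (1 + Real.log M) := by
        field_simp
      have h8 : 4 * (Cb + 1) / η * (1 + Real.log M) * (η / 4) ≤ n * (η / 4) :=
        mul_le_mul_of_nonneg_right hcard (by positivity)
      linarith
    have h9 : 0 ≤ η * n := by positivity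
    linarith
  have hsplit : n = R.card + P.card := by
    have := card_filter_add_card_filter_not (s := oq Q y)
      (fun p : ℕ => ((p : ℤ) ∣ bad f ∨ (8 * p : ℝ) < η / 2 * n))
    have h := congrArg (Nat.cast : ℕ → ℝ) this.symm
    rw [Nat.cast_add, ← hn] at h
    rw [hR, hP]
    exact h
  have hPn : (P.card : ℝ) ≤ n := by
    have : (0 : ℝ) ≤ R.card := Nat.cast_nonneg _
    linarith
  have hPn2 : n ≤ 2 * P.card := by nlinarith
  have hy2' : (2 : ℝ) ≤ y := by exact_mod_cast hy3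
  have hly0 : 0 < Real.log (y : ℝ) := Real.log_pos (by linarith)
  have hkP : κ / 2 * (y : ℝ) ^ ρ ≤ P.card * Real.log y := by
    rw [← hn] at hk
    have h6 : n * Real.log y ≤ 2 * P.card * Real.log y :=
      mul_le_mul_of_nonneg_right hPn2 hly0.le
    linarith
  have hPm : ∀ p ∈ P, p.Prime ∧ p ≠ 2 ∧ p ≤ y ∧ ¬ (p : ℤ) ∣ bad f ∧ η / 2 * n ≤ 8 * p := by
    intro p hp
    rw [hP] at hp
    simp only [mem_filter, oq, mem_range, not_or, not_lt] at hp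
    exact ⟨hp.1.2.1, hp.1.2.2.1, by omega, hp.2.1, hp.2.2⟩
  have hfin := hmain (fun p n => jacobiSym (f.eval (n : ℤ)) p) P X y hX
    (fun p hp => ⟨(hPm p hp).1, by
      have h1 := (hPm p hp).2.2.2.2
      have h2 : η / 2 * (P.card : ℝ) ≤ η / 2 * n := mul_le_mul_of_nonneg_left hPn (by positivity)
      linarith, (hPm p hp).2.2.1⟩)
    (fun p _ n => per_poly f p n)
    (fun p n => by
      have h := Pool.Agent.H379R2.W.jacobi_natAbs_le (f.eval (n : ℤ)) p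
      have h2 : |((jacobiSym (f.eval (n : ℤ)) p : ℤ) : ℝ)| ≤ 1 := by exact_mod_cast h
      exact_mod_cast h2)
    (fun p hp => by
      refine (weil_poly f hd1 p (hPm p hp).1 (hPm p hp).2.1 (hPm p hp).2.2.2.1).trans ?_
      have h1 : (f.natDegree : ℝ) ≤ D := by exact_mod_cast hd2
      exact mul_le_mul_of_nonneg_right h1 (Real.sqrt_nonneg _)) hy1 hy2 hkP
  refine le_trans ?_ hfin
  have hsub : (range X).filter (fun j : ℕ => η * (oq Q y).card ≤ |(sf Q f j y : ℝ)|) ⊆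
      (range X).filter (fun j : ℕ => η / 2 * P.card ≤
        |((∑ p ∈ P, jacobiSym (f.eval (j : ℤ)) p : ℤ) : ℝ)|) := by
    intro j hj
    rw [mem_filter] at hj ⊢
    refine ⟨hj.1, ?_⟩
    have h0 := hj.2
    rw [← hn] at h0
    have h7 : (sf Q f j y : ℝ) = ((∑ p ∈ R, jacobiSym (f.eval (j : ℤ)) p : ℤ) : ℝ) +
        ((∑ p ∈ P, jacobiSym (f.eval (j : ℤ)) p : ℤ) : ℝ) := by
      rw [hP, hR, sf]
      have := sum_filter_add_sum_filter_not (oq Q y)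
        (fun p : ℕ => ((p : ℤ) ∣ bad f ∨ (8 * p : ℝ) < η / 2 * n))
        (fun p => jacobiSym (f.eval (j : ℤ)) p)
      rw [← this]
      push_cast
      rfl
    have h8 : |((∑ p ∈ R, jacobiSym (f.eval (j : ℤ)) p : ℤ) : ℝ)| ≤ R.card := by
      push_cast
      refine (abs_sum_le_sum_abs _ _).trans ?_
      refine (sum_le_sum (g := fun _ => (1 : ℝ)) fun p _ => ?_).trans (by simp)
      have h := Pool.Agent.H379R2.W.jacobi_natAbs_le (f.eval (j : ℤ)) p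
      exact_mod_cast h
    have h9 := abs_add_le ((∑ p ∈ R, jacobiSym (f.eval (j : ℤ)) p : ℤ) : ℝ)
      ((∑ p ∈ P, jacobiSym (f.eval (j : ℤ)) p : ℤ) : ℝ)
    rw [← h7] at h9
    have h10 : η / 2 * (P.card : ℝ) ≤ η / 2 * n := mul_le_mul_of_nonneg_left hPn (by positivity)
    linarith
  exact_mod_cast card_le_card hsub

/-- all values of `y` in an interval at once -/
theorem COREP (A ρ η ε B : ℝ) (D : ℕ) (Q : Set ℕ) (hA : 2 ≤ A) (hρ : 1 / 2 < ρ) (hρ1 : ρ ≤ 1)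
    (hη : 0 < η) (hη1 : η ≤ 1) (hε : 0 < ε) (hB : 0 ≤ B) (hD1 : 1 ≤ D) (hQ : Thick Q ρ) :
    ∃ C K L₀ : ℝ, 0 < C ∧ 0 < K ∧ 1 ≤ L₀ ∧
      ∀ (l : ℝ) (f : ℤ[X]) (X : ℕ), L₀ ≤ l → 1 ≤ f.natDegree → f.natDegree ≤ D →
        (f.map (Int.castRingHom ℚ)).Separable → (∀ i, |((f.coeff i : ℤ) : ℝ)| ≤ Real.exp (B * l)) →
        l ^ C ≤ X → (X : ℝ) ≤ Real.exp (l ^ (2 / A)) → ∀ T : Finset ℕ,
        (∀ j ∈ T, j < X ∧ ∃ y : ℕ, l ^ 2 ≤ y ∧ (y : ℝ) ≤ l ^ 3 ∧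
          η * (oq Q y).card ≤ |(sf Q f j y : ℝ)|) →
        (T.card : ℝ) ≤ K * (X : ℝ) ^ (1 - ρ / 3 + 1 / (3 * A) + ε) := by
  classical
  have hA0 : (0 : ℝ) < A := by linarith
  have hρ0 : 0 < ρ := by linarith
  have hAρ : 1 < A * ρ := by nlinarith
  have hz := hQ
  obtain ⟨κ, -⟩ := hz
  have hex : ∃ κ : ℝ, 0 < κ ∧ κ ≤ 1 ∧ ∀ e : ℝ, 0 < e → ∃ y₁ : ℕ, 2 ≤ y₁ ∧ ∀ y : ℕ, y₁ ≤ y →
      κ * (y : ℝ) ^ ρ ≤ (oq Q y).card * Real.log y ∧
      5 * (y : ℝ) ^ (1 / 2 : ℝ) ≤ e * (oq Q y).card := by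
    obtain ⟨κ, hκ, hκ1, y₁, hy₁2, hbig⟩ := SI.BIG ρ 1 Q hρ one_pos hQ
    refine ⟨κ, hκ, hκ1, fun e he => ?_⟩
    obtain ⟨κ', _, _, y₂, hy₂2, hbig'⟩ := SI.BIG ρ e Q hρ he hQ
    exact ⟨max y₁ y₂, hy₁2.trans (le_max_left _ _), fun y hy =>
      ⟨(hbig y ((le_max_left _ _).trans hy)).1, (hbig' y ((le_max_right _ _).trans hy)).2⟩⟩
  obtain ⟨κ, hκ, hκ1, hex2⟩ := hex
  obtain ⟨c, K₀, C₁, hc, hK₀, hC₁, hbad⟩ := SGL A ρ κ η (ε / 2) D Q hρ0 hρ1 hAρ hκ hκ1 hη hη1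
    (by positivity) hD1
  obtain ⟨y₁, hy₁2, hbig⟩ := hex2 (5 / (C₁ * (1 + B))) (by positivity)
  have hC3 : 3 ≤ (3 / c + 6 / ε) * c := by
    have h1 : (3 / c + 6 / ε) * c = 3 + 6 / ε * c := by field_simp
    have h2 : 0 < 6 / ε * c := by positivity
    linarith
  have hC4 : 3 ≤ (3 / c + 6 / ε) * (ε / 2) := by
    have h1 : (3 / c + 6 / ε) * (ε / 2) = 3 + 3 / c * (ε / 2) := by
      field_simp
      ring
    have h2 : 0 < 3 / c * (ε / 2) := by positivity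
    linarith
  have hiA : 0 < 1 / A := by positivity
  have hy₁r : (2 : ℝ) ≤ (y₁ : ℝ) := by exact_mod_cast hy₁2
  -- facts for `y ≥ l ^ 2`
  have hfact : ∀ l : ℝ, (y₁ : ℝ) ≤ l → ∀ y : ℕ, l ^ 2 ≤ y → y₁ ≤ y ∧ l ≤ (y : ℝ) ^ (1 / 2 : ℝ) := by
    intro l hl y hy
    have hl1 : 1 ≤ l := by linarith
    have hl0 : 0 ≤ l := by linarith
    constructor
    · have : (y₁ : ℝ) ≤ y := hl.trans ((le_self_pow₀ hl1 two_ne_zero).trans hy)
      exact_mod_cast this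
    · have h1 : l = (l ^ 2) ^ (1 / 2 : ℝ) := by
        rw [← Real.sqrt_eq_rpow, Real.sqrt_sq hl0]
      rw [h1]
      exact Real.rpow_le_rpow (by positivity) hy (by norm_num)
  refine ⟨3 / c + 6 / ε, 2 * K₀, y₁, by positivity, by positivity, by linarith, ?_⟩
  intro l f X hl hd1 hd2 hsep hfc hX1 hX2 T hT
  have hl2 : 2 ≤ l := hy₁r.trans hl
  have hl1 : 1 < l := by linarith
  have hl0 : 0 < l := by linarith
  have hX1' : (1 : ℝ) ≤ X := (Real.one_le_rpow hl1.le (by positivity)).trans hX1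
  have hX0 : (0 : ℝ) < X := by linarith
  have hXn : 1 ≤ X := by exact_mod_cast hX1'
  have hlogX : Real.log X ≤ l ^ (2 / A) := by
    rw [Real.log_le_iff_le_exp hX0]
    exact hX2
  have hlogX0 : 0 ≤ Real.log X := Real.log_nonneg hX1'
  have hXA : (Real.log X / A) ^ A ≤ l ^ 2 := by
    have h1 : Real.log X / A ≤ l ^ (2 / A) := by
      refine (div_le_self hlogX0 (by linarith)).trans hlogX
    calc (Real.log X / A) ^ A ≤ (l ^ (2 / A)) ^ A :=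
          Real.rpow_le_rpow (div_nonneg hlogX0 hA0.le) h1 hA0.le
      _ = l ^ (2 : ℝ) := by
          rw [← Real.rpow_mul hl0.le, div_mul_cancel₀ _ hA0.ne']
      _ = l ^ 2 := by
          rw [← Real.rpow_natCast]
          norm_num
  have hl3 : ∀ s : ℝ, 3 ≤ (3 / c + 6 / ε) * s → 0 < s → l ^ 3 ≤ (X : ℝ) ^ s := by
    intro s hs hs0
    calc l ^ 3 = l ^ (3 : ℝ) := by
          rw [← Real.rpow_natCast]
          norm_num
      _ ≤ l ^ ((3 / c + 6 / ε) * s) := Real.rpow_le_rpow_of_exponent_le hl1.le hs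
      _ = (l ^ (3 / c + 6 / ε)) ^ s := Real.rpow_mul hl0.le _ _
      _ ≤ (X : ℝ) ^ s := Real.rpow_le_rpow (by positivity) hX1 hs0.le
  have hM1 : 1 ≤ Real.exp (B * l) := Real.one_le_exp (by positivity)
  obtain ⟨S, hS⟩ : ∃ S : ℕ → Finset ℕ, S = fun y => (range X).filter (fun j : ℕ =>
    η * (oq Q y).card ≤ |(sf Q f j y : ℝ)|) := ⟨_, rfl⟩
  obtain ⟨Y, hYdef⟩ : ∃ Y : Finset ℕ, Y = (range (⌊(X : ℝ) ^ (ε / 2)⌋₊ + 1)).filter (fun y : ℕ =>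
    l ^ 2 ≤ (y : ℝ) ∧ (y : ℝ) ≤ l ^ 3) := ⟨_, rfl⟩
  have hSc : ∀ y ∈ Y, ((S y).card : ℝ) ≤ K₀ * (X : ℝ) ^ (1 - ρ / 3 + 1 / (3 * A) + ε / 2) := by
    intro y hy
    rw [hYdef, mem_filter] at hy
    obtain ⟨-, hya, hyb⟩ := hy
    obtain ⟨hy1, hly⟩ := hfact l hl y hya
    obtain ⟨hk1, hk2⟩ := hbig y hy1
    rw [hS]
    refine hbad f (Real.exp (B * l)) X y hXn hd1 hd2 hsep hM1 hfc ?_ (hXA.trans hya)
      (hyb.trans (hl3 c hC3 hc)) (hy₁2.trans hy1) hk1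
    rw [Real.log_exp]
    have h1 : 5 * l ≤ 5 / (C₁ * (1 + B)) * (oq Q y).card := by linarith
    have h2 : C₁ * (1 + B) * (5 * l) ≤ C₁ * (1 + B) * (5 / (C₁ * (1 + B)) * (oq Q y).card) :=
      mul_le_mul_of_nonneg_left h1 (by positivity)
    have h3 : C₁ * (1 + B) * (5 / (C₁ * (1 + B)) * ((oq Q y).card : ℝ)) = 5 * (oq Q y).card := by
      field_simp
    rw [h3] at h2
    have h4 : C₁ * (1 + B) * l ≤ (oq Q y).card := by linarith
    have h5 : C₁ * (1 + B * l) ≤ C₁ * (1 + B) * l := by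
      have h6 : 1 + B * l ≤ (1 + B) * l := by nlinarith
      calc C₁ * (1 + B * l) ≤ C₁ * ((1 + B) * l) := mul_le_mul_of_nonneg_left h6 hC₁.le
        _ = _ := by ring
    linarith
  have key : T ⊆ Y.biUnion S := by
    intro j hj
    obtain ⟨hjX, y, hyl2, hyl3, hss⟩ := hT j hj
    have hyY : y ∈ Y := by
      rw [hYdef, mem_filter, mem_range]
      refine ⟨?_, hyl2, hyl3⟩
      have := Nat.le_floor (hyl3.trans (hl3 (ε / 2) hC4 (by positivity)))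
      omega
    rw [mem_biUnion]
    refine ⟨y, hyY, ?_⟩
    rw [hS]
    simp only [mem_filter, mem_range]
    exact ⟨hjX, hss⟩
  have hcard := card_le_card key
  have hc1 : (T.card : ℝ) ≤ ∑ y ∈ Y, K₀ * (X : ℝ) ^ (1 - ρ / 3 + 1 / (3 * A) + ε / 2) := by
    have h1 : (T.card : ℝ) ≤ ∑ y ∈ Y, ((S y).card : ℝ) := by
      exact_mod_cast hcard.trans card_biUnion_le
    exact h1.trans (sum_le_sum hSc)
  have hYcard : (Y.card : ℝ) ≤ (X : ℝ) ^ (ε / 2) + 1 := by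
    have h1 : (Y.card : ℝ) ≤ (⌊(X : ℝ) ^ (ε / 2)⌋₊ : ℝ) + 1 := by
      have h0 : Y.card ≤ ⌊(X : ℝ) ^ (ε / 2)⌋₊ + 1 := by
        rw [hYdef]
        refine (card_filter_le _ _).trans ?_
        rw [card_range]
      exact_mod_cast h0
    have h2 : (⌊(X : ℝ) ^ (ε / 2)⌋₊ : ℝ) ≤ (X : ℝ) ^ (ε / 2) := Nat.floor_le (by positivity)
    linarith
  rw [sum_const, nsmul_eq_mul] at hc1
  have hE1 : (1 : ℝ) ≤ (X : ℝ) ^ (ε / 2) := Real.one_le_rpow hX1' (by positivity)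
  have hprod : (X : ℝ) ^ (ε / 2) * (X : ℝ) ^ (1 - ρ / 3 + 1 / (3 * A) + ε / 2) =
      (X : ℝ) ^ (1 - ρ / 3 + 1 / (3 * A) + ε) := by
    rw [← Real.rpow_add hX0]
    congr 1
    ring
  have h1 : (Y.card : ℝ) ≤ 2 * (X : ℝ) ^ (ε / 2) := by linarith
  refine hc1.trans ?_
  calc (Y.card : ℝ) * (K₀ * (X : ℝ) ^ (1 - ρ / 3 + 1 / (3 * A) + ε / 2))
      ≤ (2 * (X : ℝ) ^ (ε / 2)) * (K₀ * (X : ℝ) ^ (1 - ρ / 3 + 1 / (3 * A) + ε / 2)) := by
        apply mul_le_mul_of_nonneg_right h1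
        positivity
    _ = 2 * K₀ * ((X : ℝ) ^ (ε / 2) * (X : ℝ) ^ (1 - ρ / 3 + 1 / (3 * A) + ε / 2)) := by ring
    _ = _ := by rw [hprod]

end Pool.Agent.R418.UP
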