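import Pool.Agent.R418.UP.C
import Pool.Agent.R418.SI.D
import Pool.Agent.TH869.EVF.Sp

set_option autoImplicit false

/-! The splitting of the primes below the threshold. -/

namespace Pool.Agent.R418.UP

open Finset Filter Polynomial Pool.Agent.Y549.SP Pool.Agent.Y549.SP.SPL

/-- `p` does not divide `a` and `a` is a square modulo `p` -/
def sqm (a : ℤ) (p : ℕ) : Prop := ¬ (p : ℤ) ∣ a ∧ ∃ x : ℤ, (p : ℤ) ∣ x ^ 2 - a

theorem sqm_iff (a : ℤ) (p : ℕ) (hp : p.Prime) : sqm a p ↔ jacobiSym a p = 1 := by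
  have : Fact p.Prime := ⟨hp⟩
  rw [← jacobiSym.legendreSym.to_jacobiSym]
  constructor
  · rintro ⟨h1, x, hx⟩
    have h0 : ((a : ℤ) : ZMod p) ≠ 0 := by
      intro h
      rw [ZMod.intCast_zmod_eq_zero_iff_dvd] at h
      exact h1 h
    rw [legendreSym.eq_one_iff p h0]
    refine ⟨(x : ZMod p), ?_⟩
    have h2 := (ZMod.intCast_zmod_eq_zero_iff_dvd (x ^ 2 - a) p).mpr hx
    push_cast at h2
    linear_combination (-1 : ZMod p) * h2
  · intro h
    have h0 : ((a : ℤ) : ZMod p) ≠ 0 := by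
      intro h0
      have := (legendreSym.eq_zero_iff p a).mpr h0
      rw [this] at h
      norm_num at h
    rw [legendreSym.eq_one_iff p h0] at h
    refine ⟨?_, ?_⟩
    · intro h2
      apply h0
      rw [ZMod.intCast_zmod_eq_zero_iff_dvd]
      exact h2
    · obtain ⟨z, hz⟩ := h
      refine ⟨(z.val : ℤ), ?_⟩
      rw [← ZMod.intCast_zmod_eq_zero_iff_dvd]
      push_cast
      rw [ZMod.natCast_zmod_val]
      linear_combination (-1 : ZMod p) * hz

/-- the primes `p ≤ y` in `Q` with `sqm` -/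
def splitZ (Q : Set ℕ) (a : ℤ) (y : ℕ) : Set ℕ := {p | p.Prime ∧ p ≤ y ∧ p ∈ Q ∧ sqm a p}

/-- the sum of the symbols -/
noncomputable def sa (Q : Set ℕ) (a : ℤ) (y : ℕ) : ℤ := ∑ p ∈ oq Q y, jacobiSym a p

open Classical in
theorem countZ (a : ℤ) (ht : a ≠ 0) (Q : Set ℕ) (y : ℕ) :
    |2 * ((splitZ Q a y).ncard : ℝ) - (primesIn Q y).ncard| ≤
      1 + 2 * Real.log |(a : ℝ)| + |(sa Q a y : ℝ)| := by
  have e1 : primesIn Q y = ((pq Q y : Finset ℕ) : Set ℕ) := by
    ext p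
    simp only [primesIn, pq, Set.mem_ofPred_eq, coe_filter, mem_range]
    constructor
    · rintro ⟨h1, h2, h3⟩
      exact ⟨by omega, h1, h3⟩
    · rintro ⟨h1, h2, h3⟩
      exact ⟨h2, by omega, h3⟩
  have e2 : splitZ Q a y =
      (((pq Q y).filter (fun p => sqm a p) : Finset ℕ) : Set ℕ) := by
    ext p
    simp only [splitZ, pq, Set.mem_ofPred_eq, coe_filter, mem_filter, mem_range]
    constructor
    · rintro ⟨h1, h2, h3, h4⟩
      exact ⟨⟨by omega, h1, h3⟩, h4⟩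
    · rintro ⟨⟨h1, h2, h3⟩, h4⟩
      exact ⟨h2, by omega, h3, h4⟩
  rw [e1, e2, Set.ncard_coe_finset, Set.ncard_coe_finset]
  set P := pq Q y with hP
  have hPm : ∀ p, p ∈ P → p.Prime := fun p hp => by
    rw [hP, pq, mem_filter] at hp
    exact hp.2.1
  have h1 : 2 * ((P.filter (fun p => sqm a p)).card : ℝ) - (P.card : ℝ) =
      ∑ p ∈ P, (2 * (if sqm a p then (1 : ℝ) else 0) - 1) := by
    rw [sum_sub_distrib, ← mul_sum, ← sum_filter, sum_const, sum_const, nsmul_eq_mul,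
      nsmul_eq_mul, mul_one, mul_one]
  have h2 : (sa Q a y : ℝ) =
      ∑ p ∈ P, (if p = 2 then (0 : ℝ) else (jacobiSym a p : ℝ)) := by
    rw [sa]
    push_cast
    have e : oq Q y = P.filter (fun p => ¬ p = 2) := by
      ext p
      rw [hP, oq, pq, mem_filter, mem_filter, mem_filter]
      tauto
    rw [e, sum_filter]
    refine sum_congr rfl fun p hp => ?_
    by_cases h : p = 2
    · rw [if_neg (fun h' => h' h), if_pos h]
    · rw [if_pos h, if_neg h]
  have h3 : ∀ p ∈ P, |(2 * (if sqm a p then (1 : ℝ) else 0) - 1) -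
      (if p = 2 then (0 : ℝ) else (jacobiSym a p : ℝ))| ≤
        (if p = 2 then (1 : ℝ) else 0) + (if (p : ℤ) ∣ a then (1 : ℝ) else 0) := by
    intro p hp
    have hpp := hPm p hp
    by_cases hp2 : p = 2
    · rw [if_pos hp2, if_pos hp2]
      have h3 : (0 : ℝ) ≤ (if (p : ℤ) ∣ a then (1 : ℝ) else 0) := by split_ifs <;> norm_num
      have h4 : |(2 * (if sqm a p then (1 : ℝ) else 0) - 1) - 0| ≤ 1 := by
        split_ifs <;> norm_num
      linarith
    · rw [if_neg hp2, if_neg hp2, zero_add]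
      have hiff := sqm_iff a p hpp
      have : Fact p.Prime := ⟨hpp⟩
      rcases jacobiSym.trichotomy a p with h | h | h
      · have h3 : (p : ℤ) ∣ a := by
          rw [← jacobiSym.legendreSym.to_jacobiSym, legendreSym.eq_zero_iff,
            ZMod.intCast_zmod_eq_zero_iff_dvd] at h
          exact h
        have h4 : ¬ sqm a p := fun h5 => h5.1 h3
        rw [if_neg h4, if_pos h3, h]
        norm_num
      · have h4 : sqm a p := hiff.mpr h
        rw [if_pos h4, h, if_neg h4.1]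
        norm_num
      · have h4 : ¬ sqm a p := fun h5 => by
          rw [hiff.mp h5] at h
          norm_num at h
        rw [if_neg h4, h]
        have h3 : (0 : ℝ) ≤ (if (p : ℤ) ∣ a then (1 : ℝ) else 0) := by
          split_ifs <;> norm_num
        have h5 : |(2 * (0 : ℝ) - 1) - (((-1 : ℤ) : ℤ) : ℝ)| = 0 := by norm_num
        rw [h5]
        exact h3
  have h4 : |∑ p ∈ P, ((2 * (if sqm a p then (1 : ℝ) else 0) - 1) -
      (if p = 2 then (0 : ℝ) else (jacobiSym a p : ℝ)))| ≤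
      1 + ((P.filter (fun p : ℕ => (p : ℤ) ∣ a)).card : ℝ) := by
    refine (abs_sum_le_sum_abs _ _).trans ((sum_le_sum h3).trans ?_)
    rw [sum_add_distrib, ← sum_filter, ← sum_filter, sum_const, sum_const,
      nsmul_eq_mul, nsmul_eq_mul, mul_one, mul_one]
    have h5 : ((P.filter (fun p => p = 2)).card : ℝ) ≤ 1 := by
      have h6 : P.filter (fun p => p = 2) ⊆ {2} := by
        intro p hp
        rw [mem_filter] at hp
        exact mem_singleton.mpr hp.2
      have := card_le_card h6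
      rw [card_singleton] at this
      exact_mod_cast this
    linarith
  have h5 : ((P.filter (fun p : ℕ => (p : ℤ) ∣ a)).card : ℝ) ≤ 2 * Real.log |(a : ℝ)| := by
    have h6 : P.filter (fun p : ℕ => (p : ℤ) ∣ a) ⊆ a.natAbs.primeFactors := by
      intro p hp
      rw [mem_filter] at hp
      exact Nat.mem_primeFactors.mpr ⟨hPm p hp.1, Int.natCast_dvd.mp hp.2,
        Int.natAbs_ne_zero.mpr ht⟩
    have h7 := card_le_card h6
    have h8 := card_primeFactors_le a.natAbs (Int.natAbs_ne_zero.mpr ht)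
    rw [Nat.cast_natAbs, Int.cast_abs] at h8
    have h10 : ((P.filter (fun p : ℕ => (p : ℤ) ∣ a)).card : ℝ) ≤ a.natAbs.primeFactors.card := by
      exact_mod_cast h7
    linarith
  have h6 : 2 * ((P.filter (fun p => sqm a p)).card : ℝ) - (P.card : ℝ) =
      ∑ p ∈ P, ((2 * (if sqm a p then (1 : ℝ) else 0) - 1) -
      (if p = 2 then (0 : ℝ) else (jacobiSym a p : ℝ))) + (sa Q a y : ℝ) := by
    rw [h1, h2, ← sum_add_distrib]
    refine sum_congr rfl fun p _ => ?_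
    ring
  rw [h6]
  refine (abs_add_le _ _).trans ?_
  linarith

/-- the comparison of the symbols of `a` and of `d` if `a d` is a square -/
theorem sa_change (Q : Set ℕ) (a d z : ℤ) (hz : a * d = z * z) (hz0 : z ≠ 0) (y : ℕ) :
    |(sa Q d y : ℝ)| ≤ |(sa Q a y : ℝ)| + 4 * Real.log |(z : ℝ)| := by
  classical
  have h1 : ∀ p ∈ oq Q y, |(jacobiSym d p : ℝ) - (jacobiSym a p : ℝ)| ≤
      2 * (if p ∣ z.natAbs then (1 : ℝ) else 0) := by
    intro p hp
    rw [oq, mem_filter] at hp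
    by_cases h : p ∣ z.natAbs
    · rw [if_pos h]
      have h2 : |(jacobiSym d p : ℝ)| ≤ 1 := by
        rcases jacobiSym.trichotomy d p with h | h | h <;> rw [h] <;> simp
      have h3 : |(jacobiSym a p : ℝ)| ≤ 1 := by
        rcases jacobiSym.trichotomy a p with h | h | h <;> rw [h] <;> simp
      have h4 := abs_sub (jacobiSym d p : ℝ) (jacobiSym a p : ℝ)
      linarith
    · rw [if_neg h, mul_zero]
      have hc : Int.gcd z p = 1 := by
        rw [Int.gcd_eq_natAbs, Int.natAbs_natCast]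
        exact ((Nat.Prime.coprime_iff_not_dvd hp.2.1).mpr h).symm
      have h2 := jacobiSym.sq_one hc
      have h3 : jacobiSym a p * jacobiSym d p = 1 := by
        rw [← jacobiSym.mul_left, hz, jacobiSym.mul_left, ← pow_two, h2]
      have h4 : (jacobiSym d p : ℝ) = (jacobiSym a p : ℝ) := by
        rcases jacobiSym.trichotomy d p with h | h | h <;>
          rcases jacobiSym.trichotomy a p with h' | h' | h' <;>
          rw [h, h'] at h3 <;> rw [h, h'] <;> norm_num at h3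
      rw [h4, sub_self, abs_zero]
  have h2 : |(sa Q d y : ℝ) - (sa Q a y : ℝ)| ≤ 4 * Real.log |(z : ℝ)| := by
    rw [sa, sa]
    push_cast
    rw [← sum_sub_distrib]
    refine (abs_sum_le_sum_abs _ _).trans ((sum_le_sum h1).trans ?_)
    rw [← mul_sum, ← sum_filter, sum_const, nsmul_eq_mul, mul_one]
    have h6 : (oq Q y).filter (fun p : ℕ => p ∣ z.natAbs) ⊆ z.natAbs.primeFactors := by
      intro p hp
      rw [mem_filter, oq, mem_filter] at hp
      exact Nat.mem_primeFactors.mpr ⟨hp.1.2.1, hp.2, Int.natAbs_ne_zero.mpr hz0⟩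
    have h7 := card_le_card h6
    have h8 := card_primeFactors_le z.natAbs (Int.natAbs_ne_zero.mpr hz0)
    rw [Nat.cast_natAbs, Int.cast_abs] at h8
    have h10 : (((oq Q y).filter (fun p : ℕ => p ∣ z.natAbs)).card : ℝ) ≤
        z.natAbs.primeFactors.card := by
      exact_mod_cast h7
    linarith
  have h3 := abs_add_le ((sa Q d y : ℝ) - (sa Q a y : ℝ)) (sa Q a y : ℝ)
  rw [sub_add_cancel] at h3
  linarith

/-- the number of the primes in `Q` below the threshold with `sqm` -/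
noncomputable def NZ (Q : Set ℕ) (a : ℤ) : ℕ := Set.ncard {p : ℕ | p.Prime ∧ p ∈ Q ∧
  (p : ℝ) < thr a ∧ ¬ (p : ℤ) ∣ a ∧ ∃ x : ℤ, (p : ℤ) ∣ x ^ 2 - a}

/-- the size of the values -/
theorem eval_le (f : ℤ[X]) (D : ℕ) (hD : f.natDegree ≤ D) (M R : ℝ) (hM : 1 ≤ M) (hR : 1 ≤ R)
    (hf : ∀ i, |((f.coeff i : ℤ) : ℝ)| ≤ M) (j : ℕ) (hj : (j : ℝ) ≤ R) :
    |((f.eval (j : ℤ) : ℤ) : ℝ)| ≤ (D + 1) * M * R ^ D := by
  rw [eval_eq_sum_range' (Nat.lt_succ_of_le hD)]
  push_cast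
  refine (abs_sum_le_sum_abs _ _).trans ?_
  refine (sum_le_sum (g := fun _ => M * R ^ D) fun i hi => ?_).trans (le_of_eq ?_)
  · rw [mem_range] at hi
    rw [abs_mul]
    refine mul_le_mul (hf i) ?_ (abs_nonneg _) (by linarith)
    rw [abs_of_nonneg (by positivity)]
    exact (pow_le_pow_left₀ (Nat.cast_nonneg j) hj i).trans
      (pow_le_pow_right₀ hR (Nat.le_of_lt_succ hi))
  · rw [sum_const, card_range, nsmul_eq_mul]
    push_cast
    ring

/-- both kinds of bad terms -/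
theorem main (A ρ η ε : ℝ) (B D : ℕ) (Q : Set ℕ) (hA : 2 ≤ A) (hρ : 1 / 2 < ρ) (hρ1 : ρ ≤ 1)
    (hη : 0 < η) (hε : 0 < ε) (hD1 : 1 ≤ D) (hQ : Thick Q ρ) :
    ∃ C K : ℝ, 0 < C ∧ 0 < K ∧ ∀ (T₀ N : ℕ) (f : ℤ[X]), 1 ≤ f.natDegree → f.natDegree ≤ D →
      (f.map (Int.castRingHom ℚ)).Separable → (∀ i, |((f.coeff i : ℤ) : ℝ)| ≤ (T₀ : ℝ) ^ B) →
      Real.log T₀ ^ C ≤ N → (N : ℝ) ≤ Real.exp (Real.log T₀ ^ (2 / A)) → ∀ T : Finset ℕ,
      (∀ j ∈ T, j < N ∧
        ((∃ d z : ℤ, NegFund d ∧ (T₀ : ℝ) ≤ |(d : ℝ)| ∧ z ≠ 0 ∧ f.eval (j : ℤ) * d = z * z ∧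
          ¬ |2 * (NQ Q d : ℝ) - MQ Q d| ≤ η * MQ Q d) ∨
         ((T₀ : ℝ) ≤ |((f.eval (j : ℤ) : ℤ) : ℝ)| ∧
          ¬ |2 * (NZ Q (f.eval (j : ℤ)) : ℝ) - MQ Q (f.eval (j : ℤ))| ≤
            η * MQ Q (f.eval (j : ℤ))))) →
      (T.card : ℝ) ≤ K * (N : ℝ) ^ (1 - ρ / 3 + 1 / (3 * A) + ε) := by
  classical
  have hA0 : (0 : ℝ) < A := by linarith
  obtain ⟨η₁, hη₁d⟩ : ∃ η₁ : ℝ, η₁ = min η 1 := ⟨_, rfl⟩
  have hη₁ : 0 < η₁ := by rw [hη₁d]; exact lt_min hη one_pos
  have hη₁1 : η₁ ≤ 1 := by rw [hη₁d]; exact min_le_right _ _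
  have hη₁η : η₁ ≤ η := by rw [hη₁d]; exact min_le_left _ _
  obtain ⟨C, K, L₁, hC, hK, hL₁, hcore⟩ := COREP A ρ (η₁ / 2) ε B D Q hA hρ hρ1 (by positivity)
    (by linarith) hε (Nat.cast_nonneg B) hD1 hQ
  obtain ⟨c, hcdef⟩ : ∃ c : ℝ, c = B + 2 * D + 2 := ⟨_, rfl⟩
  have hDr : (1 : ℝ) ≤ D := by exact_mod_cast hD1
  have hBr : (0 : ℝ) ≤ B := Nat.cast_nonneg B
  have hc4 : 4 ≤ c := by rw [hcdef]; linarith
  have hc0 : 0 < c := by linarith
  obtain ⟨κ, -, -, y₁, hy₁2, hbig⟩ := SI.BIG ρ (5 * η₁ / (14 * c)) Q hρ (by positivity) hQ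
  -- large `l`
  have hev1 : ∀ᶠ l : ℝ in atTop, Real.log (c * l) ≤ 1 / c ^ 2 * (c * l) ^ (1 / 2 : ℝ) := by
    have h1 := (isLittleO_log_rpow_atTop (r := (1 / 2 : ℝ)) (by norm_num)).bound
      (c := 1 / c ^ 2) (by positivity)
    have h2 : Tendsto (fun l : ℝ => c * l) atTop atTop :=
      tendsto_id.const_mul_atTop hc0
    filter_upwards [h2.eventually h1, eventually_ge_atTop (0 : ℝ)] with l hl hl0
    rw [Real.norm_eq_abs, Real.norm_eq_abs,
      abs_of_nonneg (Real.rpow_nonneg (by positivity : (0 : ℝ) ≤ c * l) _)] at hl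
    exact (le_abs_self _).trans hl
  have hev2 : ∀ᶠ l : ℝ in atTop, 2 ≤ Real.log l :=
    Real.tendsto_log_atTop.eventually (eventually_ge_atTop 2)
  obtain ⟨L₂, hL₂⟩ := eventually_atTop.1 (hev1.and hev2)
  obtain ⟨L₀, hL₀⟩ : ∃ L₀ : ℝ, L₀ = max L₁ (max L₂ (max (y₁ : ℝ) 2)) := ⟨_, rfl⟩
  have hiA : 0 < 1 / (3 * A) := by positivity
  refine ⟨C, K + Real.exp L₀, hC, by positivity, ?_⟩
  intro T₀ N f hd1 hd2 hsep hfc hN1 hN2 T hT
  obtain ⟨l, hl⟩ : ∃ l : ℝ, l = Real.log T₀ := ⟨_, rfl⟩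
  have hl0 : 0 ≤ l := by rw [hl]; exact Real.log_natCast_nonneg T₀
  rw [← hl] at hN1 hN2
  rcases Nat.eq_zero_or_pos N with hN0 | hNn
  · have hTe : T = ∅ := by
      rw [eq_empty_iff_forall_notMem]
      intro j hj
      have := (hT j hj).1
      omega
    rw [hTe, card_empty, Nat.cast_zero]
    positivity
  have hN1' : (1 : ℝ) ≤ N := by exact_mod_cast hNn
  have hN0 : (0 : ℝ) < N := by linarith
  have hbigN : (1 : ℝ) ≤ (N : ℝ) ^ (1 - ρ / 3 + 1 / (3 * A) + ε) :=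
    Real.one_le_rpow hN1' (by linarith)
  have h2A : 2 / A ≤ 1 := by
    rw [div_le_one hA0]
    exact hA
  by_cases hlL : l < L₀
  · have h1 : T ⊆ range N := by
      intro j hj
      exact mem_range.2 (hT j hj).1
    have h2 : (T.card : ℝ) ≤ N := by
      have := card_le_card h1
      rw [card_range] at this
      exact_mod_cast this
    have hL02 : 2 ≤ L₀ := by
      rw [hL₀]
      exact (le_max_right _ _).trans ((le_max_right _ _).trans (le_max_right _ _))
    have h3 : Real.exp (l ^ (2 / A)) ≤ Real.exp L₀ := by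
      apply Real.exp_le_exp.2
      rcases le_total l 1 with h | h
      · have : l ^ (2 / A) ≤ 1 := Real.rpow_le_one hl0 h (by positivity)
        linarith
      · have : l ^ (2 / A) ≤ l ^ (1 : ℝ) := Real.rpow_le_rpow_of_exponent_le h h2A
        rw [Real.rpow_one] at this
        linarith
    have h4 := mul_le_mul_of_nonneg_left hbigN (Real.exp_pos L₀).le
    have h5 : 0 ≤ K * (N : ℝ) ^ (1 - ρ / 3 + 1 / (3 * A) + ε) := by positivity
    rw [add_mul]
    linarith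
  push Not at hlL
  have hlL1 : L₁ ≤ l := (le_max_left _ _).trans (hL₀ ▸ hlL)
  have hlL2 : L₂ ≤ l := ((le_max_left _ _).trans (le_max_right _ _)).trans (hL₀ ▸ hlL)
  have hlL3 : (y₁ : ℝ) ≤ l :=
    ((le_max_left _ _).trans ((le_max_right _ _).trans (le_max_right _ _))).trans (hL₀ ▸ hlL)
  have hl2 : 2 ≤ l :=
    ((le_max_right _ _).trans ((le_max_right _ _).trans (le_max_right _ _))).trans (hL₀ ▸ hlL)
  have hl1 : 1 < l := by linarith
  obtain ⟨hlogcl, hlogl⟩ := hL₂ l hlL2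
  have hT₀ : 1 ≤ T₀ := by
    rw [Nat.one_le_iff_ne_zero]
    rintro rfl
    rw [Nat.cast_zero, Real.log_zero] at hl
    linarith
  have hT₀r : (1 : ℝ) ≤ T₀ := by exact_mod_cast hT₀
  have hT₀0 : (0 : ℝ) < T₀ := by linarith
  have hT₀e : (T₀ : ℝ) = Real.exp l := by rw [hl, Real.exp_log hT₀0]
  have hM1 : (1 : ℝ) ≤ (T₀ : ℝ) ^ B := one_le_pow₀ hT₀r
  have hNT : (N : ℝ) ≤ T₀ := by
    rw [hT₀e]
    refine hN2.trans (Real.exp_le_exp.2 ?_)
    have : l ^ (2 / A) ≤ l ^ (1 : ℝ) := Real.rpow_le_rpow_of_exponent_le hl1.le h2A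
    rwa [Real.rpow_one] at this
  have hval : ∀ j : ℕ, j < N → |((f.eval (j : ℤ) : ℤ) : ℝ)| ≤ (D + 1) * (T₀ : ℝ) ^ (B + D) := by
    intro j hj
    have h1 := eval_le f D hd2 ((T₀ : ℝ) ^ B) T₀ hM1 hT₀r hfc j (by
      have : (j : ℝ) ≤ N := by exact_mod_cast hj.le
      linarith)
    rw [pow_add, ← mul_assoc]
    exact h1
  have hlogval : ∀ x : ℝ, 0 < x → x ≤ 4 * ((D + 1) * (T₀ : ℝ) ^ (B + D)) →
      Real.log x ≤ c * l := by
    intro x hx0 hx
    have h1 := Real.log_le_log hx0 hx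
    have hne : (T₀ : ℝ) ^ (B + D) ≠ 0 := by positivity
    rw [Real.log_mul (by norm_num) (by positivity), Real.log_mul (by positivity) hne,
      Real.log_pow, ← hl] at h1
    push_cast at h1
    have h2 : Real.log ((D : ℝ) + 1) ≤ D := by
      have := Real.log_le_sub_one_of_pos (show (0 : ℝ) < D + 1 by positivity)
      linarith
    have h3 : Real.log 4 ≤ 2 := by
      have h4 : Real.log 4 = 2 * Real.log 2 := by
        rw [show (4 : ℝ) = 2 ^ 2 by norm_num, Real.log_pow]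
        norm_num
      have := Real.log_two_lt_d9
      rw [h4]
      linarith
    have h5 : (D : ℝ) ≤ D * l := by nlinarith
    rw [hcdef]
    nlinarith
  have hTcard := hcore l f N hlL1 hd1 hd2 hsep (fun i => by
    refine (hfc i).trans (le_of_eq ?_)
    rw [hT₀e, ← Real.exp_nat_mul]) hN1 hN2 T (by
    intro j hj
    obtain ⟨hjN, hbad⟩ := hT j hj
    refine ⟨hjN, ?_⟩
    have hv := hval j hjN
    -- the common part
    have common : ∀ a : ℤ, (T₀ : ℝ) ≤ |(a : ℝ)| → |(a : ℝ)| ≤ 4 * ((D + 1) * (T₀ : ℝ) ^ (B + D)) →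
        ∃ y : ℕ, l ^ 2 ≤ (y : ℝ) ∧ (y : ℝ) ≤ l ^ 3 ∧ 0 < thr a ∧ y = ⌈thr a⌉₊ - 1 ∧
          7 * c * l ≤ η₁ / 2 * (oq Q y).card ∧ Real.log |(a : ℝ)| ≤ c * l := by
      intro a ha1 ha2
      have ha0 : 0 < |(a : ℝ)| := by linarith
      obtain ⟨L, hL⟩ : ∃ L : ℝ, L = Real.log |(a : ℝ)| := ⟨_, rfl⟩
      have hLl : l ≤ L := by
        rw [hL, hl]
        exact Real.log_le_log (by linarith) ha1
      have hL2 : L ≤ c * l := by rw [hL]; exact hlogval _ ha0 ha2
      have hlogL : 2 ≤ Real.log L := hlogl.trans (Real.log_le_log (by linarith) hLl)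
      have hlogL2 : Real.log L ≤ Real.log (c * l) := Real.log_le_log (by linarith) hL2
      have hthr : thr a = L ^ 2 * Real.log L ^ 2 := by rw [thr, hL]
      have hthr1 : l ^ 2 + 1 ≤ thr a := by
        rw [hthr]
        exact TW.thr_ge hl1 hLl hlogL
      have hthr2 : thr a ≤ l ^ 3 := by
        rw [hthr]
        have h2 : ((c * l) ^ (1 / 2 : ℝ)) ^ 2 = c * l := by
          rw [← Real.rpow_natCast, ← Real.rpow_mul (by positivity)]
          norm_num
        have h3 : Real.log L ^ 2 ≤ l / c ^ 3 := by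
          calc Real.log L ^ 2 ≤ (1 / c ^ 2 * (c * l) ^ (1 / 2 : ℝ)) ^ 2 :=
                pow_le_pow_left₀ (by linarith) (hlogL2.trans hlogcl) 2
            _ = 1 / c ^ 4 * ((c * l) ^ (1 / 2 : ℝ)) ^ 2 := by ring
            _ = l / c ^ 3 := by
                rw [h2]
                field_simp
        have h4 : L ^ 2 ≤ (c * l) ^ 2 := pow_le_pow_left₀ (by linarith) hL2 2
        calc L ^ 2 * Real.log L ^ 2 ≤ (c * l) ^ 2 * (l / c ^ 3) :=
              mul_le_mul h4 h3 (by positivity) (by positivity)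
          _ = l ^ 3 / c := by field_simp
          _ ≤ l ^ 3 := div_le_self (by positivity) (by linarith)
      have hthr0 : 0 < thr a := lt_of_lt_of_le (by positivity) hthr1
      obtain ⟨y, hy⟩ : ∃ y : ℕ, y = ⌈thr a⌉₊ - 1 := ⟨_, rfl⟩
      obtain ⟨hylt, hyge, -, -⟩ := TW.range_eq Q a hthr0 y hy
      have hyl2 : l ^ 2 ≤ (y : ℝ) := by linarith
      have hyl3 : (y : ℝ) ≤ l ^ 3 := by linarith
      refine ⟨y, hyl2, hyl3, hthr0, hy, ?_, hL ▸ hL2⟩
      have hyy : y₁ ≤ y := by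
        have : (y₁ : ℝ) ≤ y := hlL3.trans ((le_self_pow₀ hl1.le two_ne_zero).trans hyl2)
        exact_mod_cast this
      have h3 := (hbig y hyy).2
      have h4 : l ≤ (y : ℝ) ^ (1 / 2 : ℝ) := by
        have h1 : l = (l ^ 2) ^ (1 / 2 : ℝ) := by
          rw [← Real.sqrt_eq_rpow, Real.sqrt_sq hl0]
        rw [h1]
        exact Real.rpow_le_rpow (by positivity) hyl2 (by norm_num)
      have h5 : 7 * c / 5 * (5 * l) ≤ 7 * c / 5 * (5 * η₁ / (14 * c) * (oq Q y).card) :=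
        mul_le_mul_of_nonneg_left (by linarith) (by positivity)
      have h6 : 7 * c / 5 * (5 * η₁ / (14 * c) * ((oq Q y).card : ℝ)) =
          η₁ / 2 * (oq Q y).card := by
        have hcc : c / c = 1 := div_self hc0.ne'
        calc 7 * c / 5 * (5 * η₁ / (14 * c) * ((oq Q y).card : ℝ)) =
            η₁ / 2 * (oq Q y).card * (c / c) := by ring
          _ = _ := by rw [hcc, mul_one]
      linarith
    have hfin : ∀ (a : ℤ) (y : ℕ), 0 < thr a → y = ⌈thr a⌉₊ - 1 →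
        η₁ * ((oq Q y).card : ℝ) ≤ η * (MQ Q a : ℝ) := by
      intro a y h0 hy
      obtain ⟨-, -, -, hMQ⟩ := TW.range_eq Q a h0 y hy
      have hcle : ((oq Q y).card : ℝ) ≤ (MQ Q a : ℝ) := by
        rw [← hMQ]
        exact_mod_cast CNT2.card_oq_le Q y
      exact mul_le_mul hη₁η hcle (Nat.cast_nonneg _) hη.le
    have hcl : 1 ≤ c * l := by nlinarith
    rcases hbad with ⟨d, z, hNF, hdT, hz0, hz, hb⟩ | ⟨hfT, hb⟩
    · have ha0 : f.eval (j : ℤ) ≠ 0 := by
        intro h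
        rw [h, zero_mul] at hz
        exact hz0 (mul_self_eq_zero.mp hz.symm)
      have hdsize := Pool.Agent.TH869.EVF.disc_size (f.eval (j : ℤ)) d z ha0 hz hNF.2
      have hd4 : |(d : ℝ)| ≤ 4 * ((D + 1) * (T₀ : ℝ) ^ (B + D)) := hdsize.trans (by linarith)
      obtain ⟨y, hyl2, hyl3, hthr0, hy, h7, hlogd⟩ := common d hdT hd4
      refine ⟨y, hyl2, hyl3, ?_⟩
      have h6 := hfin d y hthr0 hy
      obtain ⟨-, -, hNQ, hMQ⟩ := TW.range_eq Q d hthr0 y hy
      -- the size of `z`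
      have hzpos : 0 < |(z : ℝ)| := abs_pos.mpr (by exact_mod_cast hz0)
      have hzle : |(z : ℝ)| ≤ 4 * ((D + 1) * (T₀ : ℝ) ^ (B + D)) := by
        have h3 : |(z : ℝ)| * |(z : ℝ)| = |((f.eval (j : ℤ) : ℤ) : ℝ)| * |(d : ℝ)| := by
          rw [← abs_mul, ← abs_mul]
          congr 1
          exact_mod_cast hz.symm
        have h0 : 0 ≤ ((D : ℝ) + 1) * (T₀ : ℝ) ^ (B + D) := by positivity
        have h4 : |(z : ℝ)| * |(z : ℝ)| ≤ (4 * ((D + 1) * (T₀ : ℝ) ^ (B + D))) *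
            (4 * ((D + 1) * (T₀ : ℝ) ^ (B + D))) := by
          rw [h3]
          exact mul_le_mul (by linarith) hd4 (abs_nonneg _) (by positivity)
        exact abs_le_of_sq_le_sq' (by nlinarith) (by positivity) |>.2
      have hlogz := hlogval _ hzpos hzle
      have hdneg : d < 0 := hNF.1
      obtain ⟨t, ht⟩ : ∃ t : ℕ, t = d.natAbs := ⟨_, rfl⟩
      have htd : -(t : ℤ) = d := by omega
      have hmod : (-(t : ℤ)) % 4 = 0 ∨ (-(t : ℤ)) % 4 = 1 := by
        rw [htd]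
        obtain ⟨-, ⟨h, -⟩ | ⟨m, h, -, -⟩⟩ := hNF
        · exact Or.inr h
        · left; omega
      have h5 := SPL.count t t (by omega) hmod (fun _ _ _ => rfl) Q y
      rw [htd, hNQ, hMQ] at h5
      have h11 := (not_le.1 hb).le.trans h5
      have htlog : Real.log (t : ℝ) = Real.log |(d : ℝ)| := by
        rw [ht, Nat.cast_natAbs, Int.cast_abs]
      have hssd : (ss Q t y : ℝ) = (sa Q d y : ℝ) := by
        rw [ss, sa, htd]
      rw [htlog, hssd] at h11
      have h12 := sa_change Q (f.eval (j : ℤ)) d z hz hz0 y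
      have h13 : (sa Q (f.eval (j : ℤ)) y : ℝ) = (sf Q f j y : ℝ) := rfl
      rw [h13] at h12
      linarith
    · have hf4 : |((f.eval (j : ℤ) : ℤ) : ℝ)| ≤ 4 * ((D + 1) * (T₀ : ℝ) ^ (B + D)) := by
        have h0 : 0 ≤ ((D : ℝ) + 1) * (T₀ : ℝ) ^ (B + D) := by positivity
        linarith
      obtain ⟨y, hyl2, hyl3, hthr0, hy, h7, hlogd⟩ := common (f.eval (j : ℤ)) hfT hf4
      refine ⟨y, hyl2, hyl3, ?_⟩
      have h6 := hfin (f.eval (j : ℤ)) y hthr0 hy
      obtain ⟨-, -, -, hMQ⟩ := TW.range_eq Q (f.eval (j : ℤ)) hthr0 y hy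
      have ha0 : f.eval (j : ℤ) ≠ 0 := by
        intro h
        rw [h, Int.cast_zero, abs_zero] at hfT
        linarith
      have h5 := countZ (f.eval (j : ℤ)) ha0 Q y
      have hNZ : (splitZ Q (f.eval (j : ℤ)) y).ncard = NZ Q (f.eval (j : ℤ)) := by
        rw [NZ]
        congr 1
        ext p
        simp only [splitZ, sqm, Set.mem_ofPred_eq]
        have hiff : p ≤ y ↔ (p : ℝ) < thr (f.eval (j : ℤ)) := by
          rw [← Nat.lt_ceil, hy]
          have hc1 : 1 ≤ ⌈thr (f.eval (j : ℤ))⌉₊ := Nat.one_le_ceil_iff.mpr hthr0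
          omega
        rw [hiff]
        tauto
      rw [hNZ, hMQ] at h5
      have h11 := (not_le.1 hb).le.trans h5
      have h13 : (sa Q (f.eval (j : ℤ)) y : ℝ) = (sf Q f j y : ℝ) := rfl
      rw [h13] at h11
      linarith)
  have h5 : 0 ≤ Real.exp L₀ * (N : ℝ) ^ (1 - ρ / 3 + 1 / (3 * A) + ε) := by positivity
  rw [add_mul]
  linarith

end Pool.Agent.R418.UP
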