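import Pool.Agent.R418.UP.D
import Pool.Agent.H568.GR.Neg
import Pool.Agent.H568.GR.Pos
import Pool.Agent.H568.GR.Cnb
import Pool.Agent.W829.LT.LTA
import Pool.Agent.W255.LT.LTP
import Pool.Agent.TH847.LS.Quad

set_option autoImplicit false

/-! Torsion in the class groups of quadratic fields and the number of the small split primes. -/

namespace Pool.Agent.R418.UP

open Finset NumberField Pool.Agent.Y549.SP

/-- the discriminant of the field of a square root -/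
theorem disc_rel (K : Type) [Field K] [NumberField K] (h2 : Module.finrank ℚ K = 2) (d : ℤ)
    (hdns : ¬ IsSquare d) (y : K) (hy2 : y ^ 2 = (d : K)) :
    ∃ m : ℤ, m ≠ 0 ∧ 4 * d = m ^ 2 * discr K := by
  have hyi : IsIntegral ℤ y := by
    apply IsIntegral.of_pow (n := 2) (by norm_num)
    rw [hy2]
    exact isIntegral_algebraMap (x := d)
  set β : 𝓞 K := ⟨y, hyi⟩ with hβ
  have hβ2 : β ^ 2 = (d : 𝓞 K) := by
    apply RingOfIntegers.ext
    show algebraMap (𝓞 K) K (β ^ 2) = algebraMap (𝓞 K) K ((d : ℤ) : 𝓞 K)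
    rw [map_pow, map_intCast]
    exact hy2
  have hnot : ∀ n : ℤ, β ≠ (n : 𝓞 K) := by
    intro n hn
    rw [hn] at hβ2
    have : n ^ 2 = d := by
      have h3 : ((n ^ 2 : ℤ) : 𝓞 K) = ((d : ℤ) : 𝓞 K) := by push_cast; exact hβ2
      exact_mod_cast h3
    exact hdns ⟨n, by rw [← this]; ring⟩
  obtain ⟨u, m', hm', e1, e2⟩ := Pool.Agent.TH847.LS.quad_eq h2 β hnot
  rw [e2] at e1
  have hu : u = 0 := by
    by_contra hu
    have h3 : ((4 * u : ℤ) : 𝓞 K) * β = ((4 * d + u ^ 2 - m' ^ 2 * discr K : ℤ) : 𝓞 K) := by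
      push_cast at e1 ⊢
      linear_combination -e1 + 4 * hβ2
    have h4 := congrArg (fun z => z ^ 2) h3
    simp only [mul_pow, hβ2] at h4
    have h5 : (4 * u) ^ 2 * d = (4 * d + u ^ 2 - m' ^ 2 * discr K) ^ 2 := by exact_mod_cast h4
    have h6 : (4 * u) ^ 2 ∣ (4 * d + u ^ 2 - m' ^ 2 * discr K) ^ 2 := ⟨d, h5.symm⟩
    have h7 : (4 * u) ∣ (4 * d + u ^ 2 - m' ^ 2 * discr K) :=
      (Int.pow_dvd_pow_iff (by norm_num)).1 h6
    obtain ⟨w, hw⟩ := h7
    have h8 : (4 * u) ^ 2 ≠ 0 := by positivity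
    have h9 : d = w ^ 2 := by
      apply mul_left_cancel₀ h8
      rw [h5, hw]
      ring
    exact hdns ⟨w, by rw [h9]; ring⟩
  rw [hu] at e1
  have h3 : ((4 * d : ℤ) : 𝓞 K) = ((m' ^ 2 * discr K : ℤ) : 𝓞 K) := by
    push_cast at e1 ⊢
    linear_combination e1 - 4 * hβ2
  exact ⟨m', hm', by exact_mod_cast h3⟩

theorem disc_rel2 (K : Type) [Field K] [NumberField K] (h2 : Module.finrank ℚ K = 2) (d : ℤ)
    (hdns : ¬ IsSquare d) (y : K) (hy2 : y ^ 2 = (d : K)) :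
    (∃ z : ℤ, z ≠ 0 ∧ d * discr K = z * z) ∧ |((discr K : ℤ) : ℝ)| ≤ 4 * |(d : ℝ)| := by
  obtain ⟨m, hm, h⟩ := disc_rel K h2 d hdns y hy2
  have hδ : discr K ≠ 0 := discr_ne_zero K
  constructor
  · have h1 : (m * discr K) ^ 2 = 2 * (2 * d * discr K) := by
      rw [mul_pow]
      linear_combination (-(discr K)) * h
    have h2 : Even (m * discr K) := by
      have h3 : Even ((m * discr K) ^ 2) := by rw [h1]; exact even_two_mul _
      exact (Int.even_pow.mp h3).1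
    obtain ⟨w, hw⟩ := h2
    refine ⟨w, ?_, ?_⟩
    · rintro rfl
      rw [add_zero] at hw
      exact (mul_ne_zero hm hδ) hw
    · rw [hw] at h1
      have h4 : 4 * (d * discr K) = 4 * (w * w) := by linear_combination -h1
      linarith
  · have h3 : (4 : ℝ) * (d : ℝ) = (m : ℝ) ^ 2 * ((discr K : ℤ) : ℝ) := by exact_mod_cast h
    have h4 : 4 * |(d : ℝ)| = (m : ℝ) ^ 2 * |((discr K : ℤ) : ℝ)| := by
      have h5 := congrArg abs h3
      rw [abs_mul, abs_mul, abs_of_pos (show (0 : ℝ) < 4 by norm_num),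
        abs_of_nonneg (sq_nonneg (m : ℝ))] at h5
      exact h5
    rw [h4]
    have h6 : (1 : ℝ) ≤ (m : ℝ) ^ 2 := by
      have : (1 : ℤ) ≤ m ^ 2 := by
        have := pow_pos (abs_pos.mpr hm) 2
        rw [sq_abs] at this
        omega
      exact_mod_cast this
    exact le_mul_of_one_le_left (abs_nonneg _) h6

/-- the odd primes `p ≤ y` with `(D/p) = 1` -/
noncomputable def SPn (y : ℕ) (D : ℤ) : Finset ℕ :=
  (oq Set.univ y).filter (fun p => jacobiSym D p = 1)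

theorem mem_SPn {y : ℕ} {D : ℤ} {p : ℕ} :
    p ∈ SPn y D ↔ p ≤ y ∧ p.Prime ∧ p ≠ 2 ∧ jacobiSym D p = 1 := by
  unfold SPn oq
  simp only [mem_filter, mem_range]
  constructor
  · rintro ⟨⟨h1, h2, h3, -⟩, h4⟩
    exact ⟨by omega, h2, h3, h4⟩
  · rintro ⟨h1, h2, h3, h4⟩
    exact ⟨⟨by omega, h2, h3, Set.mem_univ _⟩, h4⟩

theorem squarefree_prod (s : Finset ℕ) (hs : ∀ p ∈ s, p.Prime) : Squarefree (∏ p ∈ s, p) := by
  classical
  induction s using Finset.induction_on with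
  | empty => simp
  | insert a s ha ih =>
    rw [prod_insert ha]
    have hap := hs a (mem_insert_self _ _)
    have hs' : ∀ p ∈ s, p.Prime := fun p hp => hs p (mem_insert_of_mem hp)
    have hcop : Nat.Coprime a (∏ p ∈ s, p) := by
      apply Nat.Coprime.prod_right
      intro p hp
      exact (Nat.coprime_primes hap (hs' p hp)).mpr (fun h => ha (h ▸ hp))
    rw [Nat.squarefree_mul hcop]
    exact ⟨hap.squarefree, ih hs'⟩

/-- products of `k` small split primes -/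
theorem choose_le (D : ℤ) (y k : ℕ) :
    (SPn y D).card.choose k ≤ (Pool.Agent.H568.GR.MM D (y ^ k)).card := by
  classical
  rw [← card_powersetCard]
  apply Finset.card_le_card_of_injOn (fun s => ∏ p ∈ s, p)
  · intro s hs
    rw [mem_coe, mem_powersetCard] at hs
    obtain ⟨hs1, hs2⟩ := hs
    have hsp : ∀ p ∈ s, p ≤ y ∧ p.Prime ∧ p ≠ 2 ∧ jacobiSym D p = 1 := fun p hp =>
      mem_SPn.mp (hs1 hp)
    rw [mem_coe, Pool.Agent.H568.GR.MM, mem_filter, mem_Icc]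
    refine ⟨⟨?_, ?_⟩, squarefree_prod s fun p hp => (hsp p hp).2.1, ?_⟩
    · exact Finset.one_le_prod' (fun p hp => (hsp p hp).2.1.one_lt.le)
    · calc ∏ p ∈ s, p ≤ ∏ p ∈ s, y := prod_le_prod' fun p hp => (hsp p hp).1
        _ = y ^ k := by rw [prod_const, hs2]
    · intro p hp hpd
      obtain ⟨q, hq, hpq⟩ := (Prime.dvd_finsetProd_iff hp.prime _).mp hpd
      have h1 := (Nat.prime_dvd_prime_iff_eq hp (hsp q hq).2.1).mp hpq
      rw [h1]
      exact ⟨(hsp q hq).2.2.1, (hsp q hq).2.2.2⟩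
  · intro s hs t ht hst
    rw [mem_coe, mem_powersetCard] at hs ht
    have h1 := Nat.primeFactors_prod (s := s) fun p hp => (mem_SPn.mp (hs.1 hp)).2.1
    have h2 := Nat.primeFactors_prod (s := t) fun p hp => (mem_SPn.mp (ht.1 hp)).2.1
    have h3 : (∏ p ∈ s, p) = ∏ p ∈ t, p := hst
    rw [← h1, ← h2, h3]

/-- torsion and products of split primes, all quadratic fields -/
theorem tor_choose : ∃ C : ℝ, 0 < C ∧ ∀ (K : Type) [Field K] [NumberField K],
    Module.finrank ℚ K = 2 → ∀ l : ℕ, 1 ≤ l →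
      (Pool.Agent.H568.GR.tor K l : ℝ) ≤ C * √|(discr K : ℝ)| * Real.log |(discr K : ℝ)| ∧
      ∀ y k : ℕ, 4 * ((y : ℝ) ^ (2 * k)) ^ l * Real.exp (l + 1) < |(discr K : ℝ)| →
      (Pool.Agent.H568.GR.tor K l : ℝ) * ((SPn y (discr K)).card.choose k : ℝ) ≤
        C * √|(discr K : ℝ)| * Real.log |(discr K : ℝ)| := by
  obtain ⟨C₁, hC₁, hpos⟩ := Pool.Agent.H568.GR.pos
  obtain ⟨C₂, hC₂, hcnb⟩ := Pool.Agent.H568.GR.cnb
  refine ⟨max C₁ C₂, lt_max_of_lt_left hC₁, ?_⟩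
  intro K _ _ h2 l hl
  have hδ2 : (2 : ℝ) < |(discr K : ℝ)| := by
    have := NumberField.abs_discr_gt_two (K := K) (by rw [h2]; norm_num)
    exact_mod_cast this
  have hlog : 0 ≤ Real.log |(discr K : ℝ)| := Real.log_nonneg (by linarith)
  have hb : 0 ≤ √|(discr K : ℝ)| * Real.log |(discr K : ℝ)| := mul_nonneg (Real.sqrt_nonneg _) hlog
  have hle1 : C₁ * √|(discr K : ℝ)| * Real.log |(discr K : ℝ)| ≤
      max C₁ C₂ * √|(discr K : ℝ)| * Real.log |(discr K : ℝ)| := by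
    rw [mul_assoc, mul_assoc]
    exact mul_le_mul_of_nonneg_right (le_max_left _ _) hb
  have hle2 : C₂ * √|(discr K : ℝ)| * Real.log |(discr K : ℝ)| ≤
      max C₁ C₂ * √|(discr K : ℝ)| * Real.log |(discr K : ℝ)| := by
    rw [mul_assoc, mul_assoc]
    exact mul_le_mul_of_nonneg_right (le_max_right _ _) hb
  refine ⟨?_, ?_⟩
  · refine le_trans ?_ ((hcnb K h2).trans hle2)
    have : Pool.Agent.H568.GR.tor K l ≤ Nat.card (ClassGroup (𝓞 K)) := by
      unfold Pool.Agent.H568.GR.tor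
      exact Nat.card_le_card_of_injective (fun c => (c : ClassGroup (𝓞 K))) Subtype.val_injective
    exact_mod_cast this
  · intro y k hlt
    have hch : ((SPn y (discr K)).card.choose k : ℝ) ≤
        (Pool.Agent.H568.GR.MM (discr K) (y ^ k)).card := by
      exact_mod_cast choose_le (discr K) y k
    have hpow : (((y ^ k : ℕ) : ℝ) ^ 2) ^ l = ((y : ℝ) ^ (2 * k)) ^ l := by
      push_cast
      simp only [← pow_mul]
      congr 1
      ring
    refine (mul_le_mul_of_nonneg_left hch (Nat.cast_nonneg _)).trans ?_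
    rcases lt_or_gt_of_ne (discr_ne_zero K) with hneg | hp
    · have h1 := Pool.Agent.H568.GR.neg K h2 hneg l (y ^ k) hl (by
        have h3 : 4 * (((y ^ k : ℕ) : ℝ) ^ 2) ^ l < ((discr K).natAbs : ℝ) := by
          rw [hpow, Nat.cast_natAbs, Int.cast_abs]
          refine lt_of_le_of_lt ?_ hlt
          exact le_mul_of_one_le_right (by positivity) (Real.one_le_exp (by positivity))
        exact_mod_cast h3)
      have h4 : (Pool.Agent.H568.GR.tor K l : ℝ) *
          ((Pool.Agent.H568.GR.MM (discr K) (y ^ k)).card : ℝ) ≤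
          (Nat.card (ClassGroup (𝓞 K)) : ℝ) := by exact_mod_cast h1
      exact h4.trans ((hcnb K h2).trans hle2)
    · refine (hpos K h2 hp l (y ^ k) hl ?_).trans hle1
      rw [hpow]
      exact hlt

/-- the criterion -/
theorem crit : ∀ ε : ℝ, 0 < ε → ∃ A0 : ℝ, 1 ≤ A0 ∧ ∀ A : ℝ, A0 ≤ A →
    ∃ X0 : ℝ, 3 ≤ X0 ∧ ∀ X : ℝ, X0 ≤ X → ∀ (K : Type) [Field K] [NumberField K],
      Module.finrank ℚ K = 2 → |(discr K : ℝ)| ≤ 4 * X ^ 2 →
      (⌊Real.log X ^ A⌋₊ : ℝ) / (20 * Real.log ⌊Real.log X ^ A⌋₊) ≤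
        ((SPn ⌊Real.log X ^ A⌋₊ (discr K)).card : ℝ) →
      ∀ l : ℕ, 1 ≤ l → (Pool.Agent.H568.GR.tor K l : ℝ) ≤
        |(discr K : ℝ)| ^ (1 / 2 - 1 / (2 * l) : ℝ) * X ^ ε := by
  intro ε hε
  obtain ⟨C, hC, htor⟩ := tor_choose
  obtain ⟨A0, hA0, h⟩ := Pool.Agent.W829.LT.lta C ε hC hε
  refine ⟨A0, hA0, fun A hA => ?_⟩
  obtain ⟨X0, hX0, h1⟩ := h A hA
  refine ⟨X0, hX0, ?_⟩
  intro X hX K _ _ h2 hD hs l hl
  obtain ⟨t1, t2⟩ := htor K h2 l hl
  have hδ2 : (2 : ℝ) < |(discr K : ℝ)| := by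
    have := NumberField.abs_discr_gt_two (K := K) (by rw [h2]; norm_num)
    exact_mod_cast this
  have hnat : ((discr K).natAbs : ℝ) = |(discr K : ℝ)| := by
    rw [Nat.cast_natAbs, Int.cast_abs]
  have h3 := h1 X hX (discr K).natAbs (SPn ⌊Real.log X ^ A⌋₊ (discr K)).card l
    (Pool.Agent.H568.GR.tor K l) (by
      have : (2 : ℝ) < ((discr K).natAbs : ℝ) := by rw [hnat]; exact hδ2
      have h4 : 2 < (discr K).natAbs := by exact_mod_cast this
      omega) (by rw [hnat]; exact hD) hl (Nat.cast_nonneg _) (by rw [hnat]; exact t1) hs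
    (fun k hk => by
      rw [hnat] at hk ⊢
      exact t2 _ k hk)
  rw [hnat] at h3
  exact h3

end Pool.Agent.R418.UP
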