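import Pool.Agent.R418.UP.E
import Pool.Agent.Y549.SP.Fin2

set_option autoImplicit false

/-! Torsion in the class groups of the fields of the square roots of the values of a polynomial. -/

namespace Pool.Agent.R418.UP

open Finset NumberField Filter Polynomial Pool.Agent.Y549.SP

/-- for some quadratic field containing a square root of `a` and some `l` the torsion bound fails -/
def BadT (ε X : ℝ) (a : ℤ) : Prop := ¬ IsSquare a ∧ ∃ (K : Type) (_ : Field K) (_ : NumberField K)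
  (l : ℕ), Module.finrank ℚ K = 2 ∧ (∃ x : K, x ^ 2 = (a : K)) ∧ 1 ≤ l ∧
    |(discr K : ℝ)| ^ (1 / 2 - 1 / (2 * l) : ℝ) * X ^ ε <
      (Nat.card {c : ClassGroup (𝓞 K) // c ^ l = 1} : ℝ)

lemma aux_lin {b l : ℝ} (hl : 1 ≤ l) : 1 + b * l ≤ (1 + b) * l := by
  rw [add_mul, one_mul]
  linarith

lemma aux_four {t : ℝ} (ht : 2 ≤ t) : 4 ≤ t ^ 2 := by nlinarith

lemma aux_sq4 {x X : ℝ} (h1 : 1 ≤ X) (h : x ≤ X) : x ≤ 4 * X ^ 2 := by nlinarith

lemma aux_cube {l : ℝ} (h1 : 2 ≤ l) : l ^ 2 + 1 ≤ l ^ 3 := by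
  nlinarith [sq_nonneg l, mul_nonneg (sq_nonneg l) (show 0 ≤ l - 2 by linarith)]

lemma aux_mul2 {l w : ℝ} (h1 : 2 ≤ l) (hw : 1 ≤ w) : w + 1 ≤ w * l := by nlinarith

theorem mem_oqU {y p : ℕ} : p ∈ oq Set.univ y ↔ p ≤ y ∧ p.Prime ∧ p ≠ 2 := by
  unfold oq
  simp only [mem_filter, mem_range]
  constructor
  · rintro ⟨h1, h2, h3, -⟩
    exact ⟨by omega, h2, h3⟩
  · rintro ⟨h1, h2, h3⟩
    exact ⟨by omega, h2, h3, Set.mem_univ _⟩

/-- the sum of the symbols and the number of split primes -/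
theorem sa_eq (D : ℤ) (hD : D ≠ 0) (y : ℕ) :
    (sa Set.univ D y : ℝ) ≤ 2 * (SPn y D).card - (oq Set.univ y).card + 2 * Real.log |(D : ℝ)| := by
  classical
  have h1 : (sa Set.univ D y : ℝ) ≤ ∑ p ∈ oq Set.univ y,
      (2 * (if jacobiSym D p = 1 then (1 : ℝ) else 0) - 1 + (if p ∣ D.natAbs then (1 : ℝ) else 0)) := by
    rw [sa]
    push_cast
    refine sum_le_sum fun p hp => ?_
    have hpp : p.Prime := (mem_oqU.mp hp).2.1
    have h0 : (0 : ℝ) ≤ (if p ∣ D.natAbs then (1 : ℝ) else 0) := by split_ifs <;> norm_num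
    rcases jacobiSym.trichotomy D p with h | h | h
    · have : Fact p.Prime := ⟨hpp⟩
      have h3 : p ∣ D.natAbs := by
        rw [← jacobiSym.legendreSym.to_jacobiSym, legendreSym.eq_zero_iff,
          ZMod.intCast_zmod_eq_zero_iff_dvd] at h
        exact Int.natCast_dvd.mp h
      rw [h, if_pos h3, if_neg (by norm_num)]
      norm_num
    · rw [h, if_pos rfl]
      push_cast
      linarith
    · rw [h, if_neg (by norm_num)]
      push_cast
      linarith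
  refine h1.trans ?_
  rw [sum_add_distrib, sum_sub_distrib, ← mul_sum, ← sum_filter, ← sum_filter, sum_const, sum_const,
    sum_const, nsmul_eq_mul, nsmul_eq_mul, nsmul_eq_mul, mul_one, mul_one, mul_one]
  have h2 : (((oq Set.univ y).filter (fun p => p ∣ D.natAbs)).card : ℝ) ≤
      2 * Real.log |(D : ℝ)| := by
    have h3 : (oq Set.univ y).filter (fun p => p ∣ D.natAbs) ⊆ D.natAbs.primeFactors := by
      intro p hp
      rw [mem_filter] at hp
      have hpp : p.Prime := (mem_oqU.mp hp.1).2.1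
      exact Nat.mem_primeFactors.mpr ⟨hpp, hp.2, Int.natAbs_ne_zero.mpr hD⟩
    have h4 := SPL.card_primeFactors_le D.natAbs (Int.natAbs_ne_zero.mpr hD)
    rw [Nat.cast_natAbs, Int.cast_abs] at h4
    have h5 : (((oq Set.univ y).filter (fun p => p ∣ D.natAbs)).card : ℝ) ≤
        D.natAbs.primeFactors.card := by exact_mod_cast card_le_card h3
    linarith
  have h6 : ((oq Set.univ y).filter (fun p => jacobiSym D p = 1)).card = (SPn y D).card := by
    rw [SPn]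
  rw [h6]
  linarith

theorem mainT (ε δ : ℝ) (B D : ℕ) (hε : 0 < ε) (hδ : 0 < δ) (hD1 : 1 ≤ D) :
    ∃ C K : ℝ, 0 < C ∧ 0 < K ∧ ∀ (T₀ N : ℕ) (f : ℤ[X]), 1 ≤ f.natDegree → f.natDegree ≤ D →
      (f.map (Int.castRingHom ℚ)).Separable → (∀ i, |((f.coeff i : ℤ) : ℝ)| ≤ (T₀ : ℝ) ^ B) →
      Real.log T₀ ^ C ≤ N → N ≤ T₀ → ∀ T : Finset ℕ,
      (∀ j ∈ T, j < N ∧ BadT ε T₀ (f.eval (j : ℤ))) →
      (T.card : ℝ) ≤ K * (N : ℝ) ^ (2 / 3 + δ) := by
  classical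
  obtain ⟨m, hm⟩ : ∃ m : ℕ, m = B + 2 * D + 2 := ⟨_, rfl⟩
  have hm0 : (0 : ℝ) < m := by
    have : 0 < m := by omega
    exact_mod_cast this
  have hm1 : (1 : ℝ) ≤ m := by
    have : 1 ≤ m := by omega
    exact_mod_cast this
  obtain ⟨A0, hA01, hcrit⟩ := crit (ε / m) (by positivity)
  obtain ⟨a, ha⟩ : ∃ a : ℝ, a = 1 + 1 / δ := ⟨_, rfl⟩
  have hiδ : 0 < 1 / δ := by positivity
  have ha1 : 1 < a := by rw [ha]; linarith
  have ha0 : 0 < a := by linarith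
  obtain ⟨A, hA⟩ : ∃ A : ℝ, A = max A0 (max (a + 1) 3) := ⟨_, rfl⟩
  have hAA0 : A0 ≤ A := by rw [hA]; exact le_max_left _ _
  have hAa : a + 1 ≤ A := by rw [hA]; exact (le_max_left _ _).trans (le_max_right _ _)
  have hA3 : 3 ≤ A := by rw [hA]; exact (le_max_right _ _).trans (le_max_right _ _)
  obtain ⟨X0, hX03, hcr⟩ := hcrit A hAA0
  have hthick := Pool.Agent.Y549.SP.Fin2.thick_univ
  obtain ⟨κ, hκ, hκ1, -, -, -⟩ := SI.BIG 1 1 Set.univ (by norm_num) one_pos hthick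
  have hex : ∃ κ : ℝ, 0 < κ ∧ κ ≤ 1 ∧ ∀ e : ℝ, 0 < e → ∃ y₁ : ℕ, 2 ≤ y₁ ∧ ∀ y : ℕ, y₁ ≤ y →
      κ * (y : ℝ) ^ (1 : ℝ) ≤ (oq Set.univ y).card * Real.log y ∧
      5 * (y : ℝ) ^ (1 / 2 : ℝ) ≤ e * (oq Set.univ y).card := by
    obtain ⟨κ, hκ, hκ1, y₁, hy₁2, hbig⟩ := SI.BIG 1 1 Set.univ (by norm_num) one_pos hthick
    refine ⟨κ, hκ, hκ1, fun e he => ?_⟩
    obtain ⟨κ', _, _, y₂, hy₂2, hbig'⟩ := SI.BIG 1 e Set.univ (by norm_num) he hthick
    exact ⟨max y₁ y₂, hy₁2.trans (le_max_left _ _), fun y hy =>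
      ⟨(hbig y ((le_max_left _ _).trans hy)).1, (hbig' y ((le_max_right _ _).trans hy)).2⟩⟩
  clear hκ hκ1 κ
  obtain ⟨κ, hκ, hκ1, hex2⟩ := hex
  obtain ⟨c, K₁, C₁, hc, hK₁, hC₁, hsgl⟩ := SGL a 1 κ (1 / 2) (δ / 2) D Set.univ one_pos le_rfl
    (by linarith) hκ hκ1 (by norm_num) (by norm_num) (by positivity) hD1
  obtain ⟨C₂, hC₂⟩ : ∃ C₂ : ℝ, C₂ = 20 * m + C₁ * (1 + B) := ⟨_, rfl⟩
  have hBr : (0 : ℝ) ≤ B := Nat.cast_nonneg B
  have hC₂0 : 0 < C₂ := by rw [hC₂]; positivity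
  obtain ⟨y₁, hy₁2, hbig⟩ := hex2 (5 / C₂) (by positivity)
  obtain ⟨y₀, hy₀⟩ := Pool.Agent.W255.LT.ltp
  -- eventual conditions
  have hev1 : ∀ᶠ l : ℝ in atTop, (m * l) ^ A ≤ l ^ (A + 1) := by
    filter_upwards [eventually_ge_atTop ((m : ℝ) ^ A), eventually_gt_atTop 0] with l h1 h2
    rw [Real.mul_rpow hm0.le h2.le, Real.rpow_add h2, Real.rpow_one, mul_comm]
    exact mul_le_mul_of_nonneg_left h1 (by positivity)
  have hev2 : ∀ᶠ l : ℝ in atTop, l ^ 2 + 1 ≤ l ^ A := by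
    filter_upwards [eventually_ge_atTop (2 : ℝ)] with l h1
    have h2 : l ^ (3 : ℝ) ≤ l ^ A := Real.rpow_le_rpow_of_exponent_le (by linarith) hA3
    have h3 : l ^ (3 : ℝ) = l ^ 3 := by
      rw [← Real.rpow_natCast]
      norm_num
    rw [h3] at h2
    exact (aux_cube h1).trans h2
  have hev3 : ∀ᶠ l : ℝ in atTop, l ^ a + 1 ≤ l ^ A := by
    filter_upwards [eventually_ge_atTop (2 : ℝ)] with l h1
    have h0 : (0 : ℝ) < l := by linarith
    have h2 : l ^ (a + 1) ≤ l ^ A := Real.rpow_le_rpow_of_exponent_le (by linarith) hAa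
    rw [Real.rpow_add h0, Real.rpow_one] at h2
    have h3 : 1 ≤ l ^ a := Real.one_le_rpow (by linarith) ha0.le
    exact (aux_mul2 h1 h3).trans h2
  have hev4 : ∀ᶠ l : ℝ in atTop, max (max (y₁ : ℝ) y₀) (max 2 X0) ≤ l := eventually_ge_atTop _
  obtain ⟨L₀, hL₀⟩ := eventually_atTop.1 ((hev1.and hev2).and (hev3.and hev4))
  obtain ⟨L₁, hL₁⟩ : ∃ L₁ : ℝ, L₁ = max L₀ 0 := ⟨_, rfl⟩
  have hC0 : 0 < (A + 1) / c := by positivity
  refine ⟨(A + 1) / c, K₁ + Real.exp L₁, hC0, by positivity, ?_⟩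
  intro T₀ N f hd1 hd2 hsep hfc hN1 hN2 T hT
  obtain ⟨l, hl⟩ : ∃ l : ℝ, l = Real.log T₀ := ⟨_, rfl⟩
  have hl0 : 0 ≤ l := by rw [hl]; exact Real.log_natCast_nonneg T₀
  rw [← hl] at hN1
  rcases Nat.eq_zero_or_pos N with hN0 | hNn
  · have hTe : T = ∅ := by
      rw [eq_empty_iff_forall_notMem]
      intro j hj
      have := (hT j hj).1
      omega
    rw [hTe, card_empty, Nat.cast_zero]
    positivity
  have hN1' : (1 : ℝ) ≤ N := by exact_mod_cast hNn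
  have hN0 : (0 : ℝ) < N := by linarith
  have hT₀ : 1 ≤ T₀ := le_trans hNn hN2
  have hT₀r : (1 : ℝ) ≤ T₀ := by exact_mod_cast hT₀
  have hT₀0 : (0 : ℝ) < T₀ := by linarith
  have hT₀e : (T₀ : ℝ) = Real.exp l := by rw [hl, Real.exp_log hT₀0]
  have hNT : (N : ℝ) ≤ T₀ := by exact_mod_cast hN2
  have hbigN : (1 : ℝ) ≤ (N : ℝ) ^ (2 / 3 + δ) := Real.one_le_rpow hN1' (by linarith)
  by_cases hlL : l < L₀
  · have h1 : T ⊆ range N := by
      intro j hj
      exact mem_range.2 (hT j hj).1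
    have h2 : (T.card : ℝ) ≤ N := by
      have := card_le_card h1
      rw [card_range] at this
      exact_mod_cast this
    have h3 : (N : ℝ) ≤ Real.exp L₁ := by
      rw [hT₀e] at hNT
      refine hNT.trans (Real.exp_le_exp.2 ?_)
      rw [hL₁]
      exact hlL.le.trans (le_max_left _ _)
    have h4 := mul_le_mul_of_nonneg_left hbigN (Real.exp_pos L₁).le
    have h5 : 0 ≤ K₁ * (N : ℝ) ^ (2 / 3 + δ) := by positivity
    rw [add_mul]
    linarith
  push Not at hlL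
  obtain ⟨⟨g1, g2⟩, g3, g4⟩ := hL₀ l hlL
  have hly₁ : (y₁ : ℝ) ≤ l := ((le_max_left _ _).trans (le_max_left _ _)).trans g4
  have hly₀ : (y₀ : ℝ) ≤ l := ((le_max_right _ _).trans (le_max_left _ _)).trans g4
  have hl2 : 2 ≤ l := ((le_max_left _ _).trans (le_max_right _ _)).trans g4
  have hlX0 : X0 ≤ l := ((le_max_right _ _).trans (le_max_right _ _)).trans g4
  have hlpos : 0 < l := by linarith
  obtain ⟨X, hX⟩ : ∃ X : ℝ, X = (T₀ : ℝ) ^ m := ⟨_, rfl⟩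
  have hlogX : Real.log X = m * l := by rw [hX, Real.log_pow, hl]
  have hXX0 : X0 ≤ X := by
    have h1 : l ≤ T₀ := by
      rw [hT₀e]
      have := Real.add_one_le_exp l
      linarith
    have h2 : (T₀ : ℝ) ≤ X := by
      rw [hX]
      exact le_self_pow₀ hT₀r (by omega)
    linarith
  have hX1 : 1 ≤ X := by linarith
  obtain ⟨y, hy⟩ : ∃ y : ℕ, y = ⌊Real.log X ^ A⌋₊ := ⟨_, rfl⟩
  have hlm : l ≤ m * l := le_mul_of_one_le_left hl0 hm1
  have hlA : l ^ A ≤ (m * l) ^ A := Real.rpow_le_rpow hl0 hlm (by linarith)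
  have hylow : l ^ A ≤ (y : ℝ) + 1 := by
    have := Nat.lt_floor_add_one (Real.log X ^ A)
    rw [← hy, hlogX] at this
    linarith
  have hyup : (y : ℝ) ≤ l ^ (A + 1) := by
    have : (y : ℝ) ≤ Real.log X ^ A := by
      rw [hy]
      exact Nat.floor_le (by rw [hlogX]; positivity)
    rw [hlogX] at this
    exact this.trans g1
  have hyl2 : l ^ 2 ≤ (y : ℝ) := by linarith
  have hyla : l ^ a ≤ (y : ℝ) := by linarith
  have hll2 : l ≤ l ^ 2 := le_self_pow₀ (by linarith) two_ne_zero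
  have hyy₁ : y₁ ≤ y := by
    have : (y₁ : ℝ) ≤ y := by linarith
    exact_mod_cast this
  have hyy₀ : y₀ ≤ y := by
    have : (y₀ : ℝ) ≤ y := by linarith
    exact_mod_cast this
  have hy2 : 2 ≤ y := hy₁2.trans hyy₁
  have hy2r : (2 : ℝ) ≤ y := by exact_mod_cast hy2
  have hlogy : 0 < Real.log (y : ℝ) := Real.log_pos (by linarith)
  obtain ⟨hk1, hk2⟩ := hbig y hyy₁
  obtain ⟨n, hn⟩ : ∃ n : ℝ, n = (oq Set.univ y).card := ⟨_, rfl⟩
  have hn0 : 0 ≤ n := by rw [hn]; exact Nat.cast_nonneg _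
  -- many primes
  have hnl : C₂ * l ≤ n := by
    have h1 : l ≤ (y : ℝ) ^ (1 / 2 : ℝ) := by
      have h1 : l = (l ^ 2) ^ (1 / 2 : ℝ) := by
        rw [← Real.sqrt_eq_rpow, Real.sqrt_sq hl0]
      rw [h1]
      exact Real.rpow_le_rpow (by positivity) hyl2 (by norm_num)
    have h2 : C₂ * (5 * l) ≤ C₂ * (5 / C₂ * n) := by
      apply mul_le_mul_of_nonneg_left _ hC₂0.le
      rw [hn]
      linarith
    have h3 : C₂ * (5 / C₂ * n) = 5 * n := by
      have hcc : C₂ / C₂ = 1 := div_self hC₂0.ne'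
      calc C₂ * (5 / C₂ * n) = 5 * n * (C₂ / C₂) := by ring
        _ = 5 * n := by rw [hcc, mul_one]
    linarith
  have hPQ : (y : ℝ) / (2 * Real.log y) ≤ n := by
    have h1 := hy₀ y hyy₀
    have h2 : (Pool.Agent.W627.LT.PQ y) ⊆ oq Set.univ y := by
      intro p hp
      unfold Pool.Agent.W627.LT.PQ at hp
      rw [mem_filter, mem_Icc] at hp
      exact mem_oqU.mpr ⟨by omega, hp.2, by omega⟩
    have h3 : ((Pool.Agent.W627.LT.PQ y).card : ℝ) ≤ n := by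
      rw [hn]
      exact_mod_cast card_le_card h2
    exact h1.trans h3
  have hM1 : (1 : ℝ) ≤ (T₀ : ℝ) ^ B := one_le_pow₀ hT₀r
  have hlogM : Real.log ((T₀ : ℝ) ^ B) = B * l := by rw [Real.log_pow, hl]
  have hcard := hsgl f ((T₀ : ℝ) ^ B) N y hNn hd1 hd2 hsep hM1 hfc (by
    rw [hlogM, ← hn]
    refine le_trans ?_ hnl
    rw [hC₂]
    have h6 : 1 + B * l ≤ (1 + B) * l := aux_lin (by linarith)
    have h7 : C₁ * (1 + B * l) ≤ C₁ * ((1 + B) * l) := mul_le_mul_of_nonneg_left h6 hC₁.le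
    have h8 : 0 ≤ 20 * (m : ℝ) * l := by positivity
    linarith) (by
    refine le_trans ?_ hyla
    have hlogN : Real.log N ≤ l := by rw [hl]; exact Real.log_le_log hN0 hNT
    have hlogN0 : 0 ≤ Real.log N := Real.log_nonneg hN1'
    exact Real.rpow_le_rpow (div_nonneg hlogN0 ha0.le)
      ((div_le_self hlogN0 ha1.le).trans hlogN) ha0.le) (by
    refine hyup.trans ?_
    have h1 : (l ^ ((A + 1) / c)) ^ c ≤ (N : ℝ) ^ c := Real.rpow_le_rpow (by positivity) hN1 hc.le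
    rw [← Real.rpow_mul hl0, div_mul_cancel₀ _ hc.ne'] at h1
    exact h1) hy2 hk1
  have hsub : T ⊆ (range N).filter (fun j : ℕ =>
      1 / 2 * (oq Set.univ y).card ≤ |(sf Set.univ f j y : ℝ)|) := by
    intro j hj
    obtain ⟨hjN, hns, K, i1, i2, l', h2, ⟨x, hx⟩, hl', hbad⟩ := hT j hj
    rw [mem_filter, mem_range]
    refine ⟨hjN, ?_⟩
    obtain ⟨⟨z, hz0, hz⟩, hdle⟩ := disc_rel2 K h2 (f.eval (j : ℤ)) hns x hx
    have hval := eval_le f D hd2 ((T₀ : ℝ) ^ B) T₀ hM1 hT₀r hfc j (by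
      have : (j : ℝ) ≤ N := by exact_mod_cast hjN.le
      linarith)
    -- everything is at most `X`
    have hbd : 4 * ((D + 1) * (T₀ : ℝ) ^ B * (T₀ : ℝ) ^ D) ≤ X := by
      have hT2 : (2 : ℝ) ≤ T₀ := by
        rw [hT₀e]
        have := Real.add_one_le_exp l
        linarith
      have hT4 : (4 : ℝ) ≤ (T₀ : ℝ) ^ 2 := aux_four hT2
      have hD2 : (D : ℝ) + 1 ≤ (T₀ : ℝ) ^ D := by
        have h5 : D + 1 ≤ 2 ^ D := Nat.lt_two_pow_self
        have h6 : (D : ℝ) + 1 ≤ (2 : ℝ) ^ D := by exact_mod_cast h5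
        exact h6.trans (pow_le_pow_left₀ (by norm_num) hT2 D)
      have e1 : X = (T₀ : ℝ) ^ 2 * ((T₀ : ℝ) ^ D * (T₀ : ℝ) ^ B * (T₀ : ℝ) ^ D) := by
        rw [hX, hm]
        ring
      rw [e1]
      have hTB : 0 ≤ (T₀ : ℝ) ^ B := by positivity
      have hTD : 0 ≤ (T₀ : ℝ) ^ D := by positivity
      exact mul_le_mul hT4 (mul_le_mul_of_nonneg_right (mul_le_mul_of_nonneg_right hD2 hTB) hTD)
        (by positivity) (by positivity)
    have hv4 : 4 * |((f.eval (j : ℤ) : ℤ) : ℝ)| ≤ X := by linarith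
    have hdX : |(discr K : ℝ)| ≤ X := hdle.trans hv4
    have hzpos : 0 < |(z : ℝ)| := abs_pos.mpr (by exact_mod_cast hz0)
    have hzX : |(z : ℝ)| ≤ X := by
      have h3 : |(z : ℝ)| * |(z : ℝ)| = |((f.eval (j : ℤ) : ℤ) : ℝ)| * |(discr K : ℝ)| := by
        rw [← abs_mul, ← abs_mul]
        congr 1
        exact_mod_cast hz.symm
      have h0 : 0 ≤ |((f.eval (j : ℤ) : ℤ) : ℝ)| := abs_nonneg _
      have h4 : |(z : ℝ)| * |(z : ℝ)| ≤ X * X := by
        rw [h3]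
        exact mul_le_mul (by linarith) hdX (abs_nonneg _) (by linarith)
      exact abs_le_of_sq_le_sq' (by rw [pow_two, pow_two]; exact h4) (by linarith) |>.2
    have hlogz : Real.log |(z : ℝ)| ≤ m * l := by
      rw [← hlogX]
      exact Real.log_le_log hzpos hzX
    have hdpos : 0 < |(discr K : ℝ)| := abs_pos.mpr (by exact_mod_cast discr_ne_zero K)
    have hlogd : Real.log |(discr K : ℝ)| ≤ m * l := by
      rw [← hlogX]
      exact Real.log_le_log hdpos hdX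
    -- few split primes
    have hs : ((SPn y (discr K)).card : ℝ) < (y : ℝ) / (20 * Real.log y) := by
      by_contra hcon
      push Not at hcon
      have h5 := hcr X hXX0 K h2 (aux_sq4 hX1 hdX) (by rw [← hy]; exact hcon) l' hl'
      have h6 : X ^ (ε / m) = (T₀ : ℝ) ^ ε := by
        rw [hX, ← Real.rpow_natCast, ← Real.rpow_mul hT₀0.le]
        congr 1
        field_simp
      rw [h6] at h5
      have h7 : (Pool.Agent.H568.GR.tor K l' : ℝ) =
        (Nat.card {c : ClassGroup (𝓞 K) // c ^ l' = 1} : ℝ) := rfl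
      rw [h7] at h5
      exact absurd h5 (not_le.mpr hbad)
    have hs2 : (y : ℝ) / (20 * Real.log y) ≤ n / 10 := by
      have h8 : (y : ℝ) / (20 * Real.log y) = (y : ℝ) / (2 * Real.log y) / 10 := by
        rw [div_div]
        congr 1
        ring
      rw [h8]
      linarith
    have h9 := sa_eq (discr K) (discr_ne_zero K) y
    have h10 := sa_change Set.univ (f.eval (j : ℤ)) (discr K) z hz hz0 y
    have h11 : (sa Set.univ (f.eval (j : ℤ)) y : ℝ) = (sf Set.univ f j y : ℝ) := rfl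
    rw [h11] at h10
    rw [← hn] at h9 ⊢
    have h12 : 20 * (m * l) ≤ n := by
      refine le_trans ?_ hnl
      rw [hC₂]
      have h13 : 0 ≤ C₁ * (1 + B) * l := by positivity
      linarith
    have h14 : -(sa Set.univ (discr K) y : ℝ) ≤ |(sa Set.univ (discr K) y : ℝ)| := neg_le_abs _
    linarith
  have hfin : (T.card : ℝ) ≤ K₁ * (N : ℝ) ^ (1 - 1 / 3 + 1 / (3 * a) + δ / 2 : ℝ) := by
    refine le_trans ?_ hcard
    exact_mod_cast card_le_card hsub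
  have hexp : (1 - 1 / 3 + 1 / (3 * a) + δ / 2 : ℝ) ≤ 2 / 3 + δ := by
    have h1 : 1 / (3 * a) ≤ δ / 3 := by
      rw [div_le_iff₀ (by positivity), ha]
      have : δ / 3 * (3 * (1 + 1 / δ)) = δ + 1 := by
        field_simp
      linarith
    linarith
  have h1 : K₁ * (N : ℝ) ^ (1 - 1 / 3 + 1 / (3 * a) + δ / 2 : ℝ) ≤
      K₁ * (N : ℝ) ^ (2 / 3 + δ) :=
    mul_le_mul_of_nonneg_left (Real.rpow_le_rpow_of_exponent_le hN1' hexp) hK₁.le
  have h5 : 0 ≤ Real.exp L₁ * (N : ℝ) ^ (2 / 3 + δ) := by positivity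
  rw [add_mul]
  linarith

end Pool.Agent.R418.UP
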